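import Pool.Agent.Helper79K9.SM.Final

/-!
# The free energy of a defect
-/

set_option autoImplicit false

open Set Filter Topology MeasureTheory

namespace Pool.Agent.Helper79K9.SM

open Pool.H47EA (Site dist1 Coupling couplingLaw Unit01 LocalOn Jc sg lat nbr edgesOf glue)
open Pool.Agent.Helper79K9.EA (ham Zp gE spin spin_mk cpl Decays sp Zp_pos)
open Pool.Agent.Helper79K9.FS (DecaysAt phase)

variable {d : ℕ}

theorem sg_sq (a b : Bool) : |sg a * sg b| = 1 := by
  unfold sg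
  split_ifs <;> norm_num

theorem spin_abs (σ : Site d → Bool) (e : Sym2 (Site d)) : |spin σ e| = 1 := by
  induction e using Sym2.ind with
  | _ x y => exact sg_sq _ _

theorem ham_smul (W : Sym2 (Site d) → ℝ) (b : ℝ) (Λ : Finset (Site d)) (σ : Site d → Bool) :
    ham (fun e => b * W e) (fun _ => 0) Λ σ = b * ham W (fun _ => 0) Λ σ := by
  unfold ham
  simp only [zero_mul, Finset.sum_const_zero, add_zero, Finset.mul_sum, mul_assoc]

theorem logZ_deriv' (W : Sym2 (Site d) → ℝ) (Λ : Finset (Site d)) (ξ : Site d → Bool) (b : ℝ) :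
    HasDerivAt (fun b => Real.log (Zp (fun e => b * W e) (fun _ => 0) Λ ξ))
      (gE (fun e => b * W e) (fun _ => 0) Λ ξ (ham W (fun _ => 0) Λ)) b := by
  have hZ : HasDerivAt (fun b => Zp (fun e => b * W e) (fun _ => 0) Λ ξ)
      (∑ η : Λ → Bool, Real.exp (ham (fun e => b * W e) (fun _ => 0) Λ (glue Λ η ξ)) *
        ham W (fun _ => 0) Λ (glue Λ η ξ)) b := by
    unfold Zp
    simp only [ham_smul]
    refine HasDerivAt.fun_sum fun η _ => ?_
    have h1 : HasDerivAt (fun b => b * ham W (fun _ => 0) Λ (glue Λ η ξ))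
        (ham W (fun _ => 0) Λ (glue Λ η ξ)) b := by
      simpa using (hasDerivAt_id b).mul_const (ham W (fun _ => 0) Λ (glue Λ η ξ))
    exact h1.exp
  exact hZ.log (Zp_pos _ _ Λ ξ).ne'

theorem gE_ham (W' W : Sym2 (Site d) → ℝ) (Λ : Finset (Site d)) (ξ : Site d → Bool) :
    gE W' (fun _ => 0) Λ ξ (ham W (fun _ => 0) Λ) =
      ∑ e ∈ edgesOf Λ, W e * gE W' (fun _ => 0) Λ ξ (fun σ => spin σ e) := by
  unfold gE
  simp only [mul_div_assoc']
  rw [← Finset.sum_div]
  congr 1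
  unfold ham
  simp only [zero_mul, Finset.sum_const_zero, add_zero, Finset.mul_sum]
  rw [Finset.sum_comm]
  refine Finset.sum_congr rfl fun e _ => Finset.sum_congr rfl fun η _ => ?_
  ring

/-- transport of averages of bonds -/
theorem transport (W : Sym2 (Site d) → ℝ) (Λ : Finset (Site d)) (ξ ξ' : Site d → Bool)
    (T : (Λ → Bool) ≃ (Λ → Bool))
    (hT : ∀ η, ∀ e ∈ edgesOf Λ, W e ≠ 0 → spin (glue Λ η ξ) e = spin (glue Λ (T η) ξ') e)
    (b : ℝ) {e : Sym2 (Site d)} (he : e ∈ edgesOf Λ) (hW : W e ≠ 0) :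
    gE (fun e => b * W e) (fun _ => 0) Λ ξ (fun σ => spin σ e) =
      gE (fun e => b * W e) (fun _ => 0) Λ ξ' (fun σ => spin σ e) := by
  have hham : ∀ η, ham (fun e => b * W e) (fun _ => 0) Λ (glue Λ η ξ) =
      ham (fun e => b * W e) (fun _ => 0) Λ (glue Λ (T η) ξ') := by
    intro η
    rw [ham_smul, ham_smul]
    congr 1
    unfold ham
    simp only [zero_mul, Finset.sum_const_zero, add_zero]
    refine Finset.sum_congr rfl fun e he => ?_
    by_cases h : W e = 0
    · rw [h]; ring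
    · rw [hT η e he h]
  unfold gE Zp
  congr 1
  · exact Fintype.sum_equiv T _ _ fun η => by
      beta_reduce
      rw [hham, hT η e he hW]
  · exact Fintype.sum_equiv T _ _ fun η => by rw [hham]

theorem spin_ff (W : Sym2 (Site d) → ℝ) (Λ : Finset (Site d)) (ξ : Site d → Bool)
    (e : Sym2 (Site d)) :
    gE W (fun _ => 0) Λ ξ (fun σ => spin σ e) =
      2 * gE W (fun _ => 0) Λ ξ (fun σ => (1 + spin σ e) / 2) - 1 := by
  have h := (sp W (fun _ => (0 : ℝ))).lin Λ ξ (fun σ => (1 + spin σ e) / 2) (fun _ => 1) 2 (-1)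
  rw [(sp W (fun _ => (0 : ℝ))).const] at h
  have e1 : (fun σ : Site d → Bool => spin σ e) =
      fun σ => 2 * ((1 + spin σ e) / 2) + -1 * 1 := by
    funext σ
    ring
  rw [e1, h]
  ring

/-- decay for bonds -/
theorem spin_decay {W : Sym2 (Site d) → ℝ} {K : Site d → ℝ} {a : ℝ} (hK : ∀ x, 0 ≤ K x)
    (hD : DecaysAt (gE W (fun _ => 0)) K a) (Λ : Finset (Site d)) (x y : Site d) (n : ℕ)
    (ξ ξ' : Site d → Bool)
    (h : ∀ z, z ∉ Λ → ξ z ≠ ξ' z → n ≤ dist1 x z ∧ n ≤ dist1 y z) :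
    |gE W (fun _ => 0) Λ ξ (fun σ => spin σ s(x, y)) -
      gE W (fun _ => 0) Λ ξ' (fun σ => spin σ s(x, y))| ≤
      2 * (K x + K y) * Real.exp (-(a * n)) := by
  classical
  rw [spin_ff, spin_ff]
  have h1 := hD {x, y} Λ (fun σ => (1 + spin σ s(x, y)) / 2) (fun σ => by
      have := abs_le.1 (spin_abs σ s(x, y)).le
      constructor <;> linarith [this.1, this.2]) (fun σ σ' hσ => by
      show (1 + spin σ s(x, y)) / 2 = (1 + spin σ' s(x, y)) / 2
      rw [spin_mk, spin_mk, hσ x (by simp), hσ y (by simp)]) n ξ ξ' (fun w hw z hz hne => by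
      rcases Finset.mem_insert.1 hw with rfl | hw
      · exact (h z hz hne).1
      · rw [Finset.mem_singleton.1 hw]
        exact (h z hz hne).2)
  have h2 : ∑ a ∈ {x, y}, K a ≤ K x + K y := by
    by_cases hxy : x = y
    · subst hxy
      simp only [Finset.insert_eq_of_mem, Finset.mem_singleton, Finset.sum_singleton]
      linarith [hK x]
    · rw [Finset.sum_pair hxy]
  have h3 : (0 : ℝ) ≤ Real.exp (-(a * n)) := (Real.exp_pos _).le
  have h4 := mul_le_mul_of_nonneg_right h2 h3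
  calc _ = 2 * |gE W (fun _ => 0) Λ ξ (fun σ => (1 + spin σ s(x, y)) / 2) -
      gE W (fun _ => 0) Λ ξ' (fun σ => (1 + spin σ s(x, y)) / 2)| := by
        rw [← abs_of_pos (show (0 : ℝ) < 2 by norm_num), ← abs_mul, abs_of_pos (show (0 : ℝ) < 2 by norm_num)]
        congr 1
        ring
    _ ≤ 2 * ((K x + K y) * Real.exp (-(a * n))) := by linarith
    _ = _ := by ring

/-- The difference of the bond averages for two boundary conditions. -/
theorem bond_defect {W : Sym2 (Site d) → ℝ} {K : Site d → ℝ} {a : ℝ} (hK : ∀ x, 0 ≤ K x) {b : ℝ}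
    (hD : DecaysAt (gE (fun e => b * W e) (fun _ => 0)) K a) (Λ : Finset (Site d)) (n : ℕ)
    (ξ ξ' : Site d → Bool) (act : Site d → Prop)
    (hact : ∀ x ∈ Λ, ∀ y, dist1 x y = 1 → y ∉ Λ → W s(x, y) ≠ 0 → act y)
    (hsep : ∀ y z, act y → act z → ξ y = ξ' y → ξ z ≠ ξ' z → 2 * n ≤ dist1 y z)
    {x y : Site d} (hx : x ∈ Λ) (hxy : dist1 x y = 1) (hW : W s(x, y) ≠ 0) :
    |gE (fun e => b * W e) (fun _ => 0) Λ ξ (fun σ => spin σ s(x, y)) -
      gE (fun e => b * W e) (fun _ => 0) Λ ξ' (fun σ => spin σ s(x, y))| ≤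
      2 * (K x + K y) * Real.exp (-(a * n)) := by
  classical
  have hmem : s(x, y) ∈ edgesOf Λ := Pool.H47EA.Basic.mem_edgesOf.2 ⟨x, hx, y, hxy, rfl⟩
  have tri := @Pool.H47EA.GoodAux.dist1_triangle d
  have cm := @Pool.H47EA.GoodAux.dist1_comm d
  by_cases hfar : ∀ z, act z → ξ z ≠ ξ' z → n ≤ dist1 x z ∧ n ≤ dist1 y z
  · -- the sites of disagreement are far
    set ξ2 : Site d → Bool := fun z => if act z then ξ' z else ξ z with hξ2
    have e1 : gE (fun e => b * W e) (fun _ => 0) Λ ξ' (fun σ => spin σ s(x, y)) =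
        gE (fun e => b * W e) (fun _ => 0) Λ ξ2 (fun σ => spin σ s(x, y)) := by
      refine transport W Λ ξ' ξ2 (Equiv.refl _) ?_ b hmem hW
      intro η e he hWe
      obtain ⟨u, hu, v, huv, rfl⟩ := Pool.H47EA.Basic.mem_edgesOf.1 he
      rw [spin_mk, spin_mk, Equiv.refl_apply, Pool.H47EA.Basic.glue_mem _ _ hu,
        Pool.H47EA.Basic.glue_mem _ _ hu]
      congr 2
      by_cases hv : v ∈ Λ
      · rw [Pool.H47EA.Basic.glue_mem _ _ hv, Pool.H47EA.Basic.glue_mem _ _ hv]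
      · rw [Pool.H47EA.Basic.glue_not_mem _ _ hv, Pool.H47EA.Basic.glue_not_mem _ _ hv, hξ2]
        have := hact u hu v huv hv hWe
        simp [this]
    rw [e1]
    refine spin_decay hK hD Λ x y n ξ ξ2 fun z _ hne => ?_
    by_cases hz : act z
    · refine hfar z hz ?_
      simpa [hξ2, hz] using hne
    · exact absurd (by simp [hξ2, hz]) hne
  · -- the sites of agreement are far
    push Not at hfar
    obtain ⟨z0, hz0, hne0, hfar⟩ := hfar
    have hd0 : dist1 x z0 < n ∨ dist1 y z0 < n := by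
      by_cases h : n ≤ dist1 x z0
      · exact Or.inr (hfar h)
      · exact Or.inl (not_le.1 h)
    set ξ2 : Site d → Bool := fun z => if act z then !(ξ' z) else ξ z with hξ2
    let T : (Λ → Bool) ≃ (Λ → Bool) :=
      { toFun := fun η z => !(η z)
        invFun := fun η z => !(η z)
        left_inv := fun η => by funext z; simp
        right_inv := fun η => by funext z; simp }
    have hsg : ∀ a b : Bool, sg (!a) * sg (!b) = sg a * sg b := by
      intro a b
      cases a <;> cases b <;> simp [sg]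
    have e1 : gE (fun e => b * W e) (fun _ => 0) Λ ξ' (fun σ => spin σ s(x, y)) =
        gE (fun e => b * W e) (fun _ => 0) Λ ξ2 (fun σ => spin σ s(x, y)) := by
      refine transport W Λ ξ' ξ2 T ?_ b hmem hW
      intro η e he hWe
      obtain ⟨u, hu, v, huv, rfl⟩ := Pool.H47EA.Basic.mem_edgesOf.1 he
      rw [spin_mk, spin_mk, Pool.H47EA.Basic.glue_mem _ _ hu,
        Pool.H47EA.Basic.glue_mem _ _ hu]
      by_cases hv : v ∈ Λ
      · rw [Pool.H47EA.Basic.glue_mem _ _ hv, Pool.H47EA.Basic.glue_mem _ _ hv]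
        exact (hsg _ _).symm
      · rw [Pool.H47EA.Basic.glue_not_mem _ _ hv, Pool.H47EA.Basic.glue_not_mem _ _ hv]
        have h1 := hact u hu v huv hv hWe
        have h2 : ξ2 v = !(ξ' v) := by simp [hξ2, h1]
        rw [h2]
        exact (hsg _ _).symm
    rw [e1]
    refine spin_decay hK hD Λ x y n ξ ξ2 fun z _ hne => ?_
    by_cases hz : act z
    · have h1 : ξ z = ξ' z := by
        have h2 : ξ z ≠ !(ξ' z) := by simpa [hξ2, hz] using hne
        revert h2
        cases ξ z <;> cases ξ' z <;> simp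
      have h3 := hsep z z0 hz hz0 h1 hne0
      have t1 := tri z x z0
      have t2 := tri z y z0
      have t3 := tri z x y
      have t4 := tri z y x
      have c1 := cm x z
      have c2 := cm y z
      have c3 := cm x y
      constructor <;> rcases hd0 with h | h <;> omega
    · exact absurd (by simp [hξ2, hz]) hne

/-- The prefactor of a bond. -/
noncomputable def kap (K : Site d → ℝ) : Sym2 (Site d) → ℝ :=
  Sym2.lift ⟨fun x y => 2 * (K x + K y), fun x y => by
    show 2 * (K x + K y) = 2 * (K y + K x)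
    ring⟩

/-- The free energy of a defect. -/
theorem defect {K : Site d → ℝ} {a : ℝ} (hK : ∀ x, 0 ≤ K x) {β : ℝ} (hβ : 0 < β)
    {W : Sym2 (Site d) → ℝ} (hW1 : ∀ e, |W e| ≤ 1)
    (hD : ∀ b ∈ Ioo 0 β, DecaysAt (gE (fun e => b * W e) (fun _ => 0)) K a) (Λ : Finset (Site d))
    (n : ℕ) (ξ ξ' : Site d → Bool) (act : Site d → Prop)
    (hact : ∀ x ∈ Λ, ∀ y, dist1 x y = 1 → y ∉ Λ → W s(x, y) ≠ 0 → act y)
    (hsep : ∀ y z, act y → act z → ξ y = ξ' y → ξ z ≠ ξ' z → 2 * n ≤ dist1 y z) :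
    |Real.log (Zp (fun e => β * W e) (fun _ => 0) Λ ξ) -
      Real.log (Zp (fun e => β * W e) (fun _ => 0) Λ ξ')| ≤
      β * ((∑ e ∈ edgesOf Λ, kap K e) * Real.exp (-(a * n))) := by
  set Φ : ℝ → ℝ := fun b => Real.log (Zp (fun e => b * W e) (fun _ => 0) Λ ξ) -
    Real.log (Zp (fun e => b * W e) (fun _ => 0) Λ ξ') with hΦ
  set Φ' : ℝ → ℝ := fun b => gE (fun e => b * W e) (fun _ => 0) Λ ξ (ham W (fun _ => 0) Λ) -
    gE (fun e => b * W e) (fun _ => 0) Λ ξ' (ham W (fun _ => 0) Λ) with hΦ'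
  have hd : ∀ b, HasDerivAt Φ (Φ' b) b := fun b =>
    (logZ_deriv' W Λ ξ b).sub (logZ_deriv' W Λ ξ' b)
  have h0 : Φ 0 = 0 := by
    have e1 : ∀ ζ : Site d → Bool, Zp (fun e => (0 : ℝ) * W e) (fun _ => 0) Λ ζ =
        ∑ _η : Λ → Bool, Real.exp 0 := by
      intro ζ
      unfold Zp
      refine Finset.sum_congr rfl fun η _ => ?_
      rw [ham_smul, zero_mul]
    simp only [hΦ]
    rw [e1, e1, sub_self]
  obtain ⟨b, hb, hslope⟩ := exists_hasDerivAt_eq_slope Φ Φ' hβ
    (fun b _ => (hd b).continuousAt.continuousWithinAt) (fun b _ => hd b)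
  rw [h0, sub_zero, sub_zero, eq_div_iff hβ.ne'] at hslope
  have h1 : |Φ' b| ≤ (∑ e ∈ edgesOf Λ, kap K e) * Real.exp (-(a * n)) := by
    simp only [hΦ']
    rw [gE_ham, gE_ham, ← Finset.sum_sub_distrib, Finset.sum_mul]
    refine (Finset.abs_sum_le_sum_abs _ _).trans (Finset.sum_le_sum fun e he => ?_)
    obtain ⟨x, hx, y, hxy, rfl⟩ := Pool.H47EA.Basic.mem_edgesOf.1 he
    have hpos : 0 ≤ kap K s(x, y) * Real.exp (-(a * n)) := by
      have h2 : kap K s(x, y) = 2 * (K x + K y) := rfl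
      rw [h2]
      have := hK x
      have := hK y
      positivity
    by_cases hWe : W s(x, y) = 0
    · rw [hWe, zero_mul, zero_mul, sub_zero, abs_zero]
      exact hpos
    · rw [← mul_sub, abs_mul]
      have h2 := bond_defect hK (hD b hb) Λ n ξ ξ' act hact hsep hx hxy hWe
      calc _ ≤ 1 * (2 * (K x + K y) * Real.exp (-(a * n))) :=
            mul_le_mul (hW1 _) h2 (abs_nonneg _) zero_le_one
        _ = _ := by rw [one_mul]; rfl
  have h2 : Φ β = Φ' b * β := hslope.symm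
  show |Φ β| ≤ _
  rw [h2, abs_mul, abs_of_pos hβ, mul_comm]
  exact mul_le_mul_of_nonneg_left h1 hβ.le

/-! ### uniform decay on compact sets of the phase -/

theorem decaysAt_mono {g : Finset (Site d) → (Site d → Bool) → ((Site d → Bool) → ℝ) → ℝ}
    {K K' : Site d → ℝ} {a a' : ℝ} (h : DecaysAt g K a) (hK : ∀ x, K x ≤ K' x)
    (hK0 : ∀ x, 0 ≤ K x) (ha : a' ≤ a) : DecaysAt g K' a' := by
  intro A Λ f hf hfA n ξ ξ' hA
  refine (h A Λ f hf hfA n ξ ξ' hA).trans ?_
  refine mul_le_mul (Finset.sum_le_sum fun x _ => hK x) ?_ (Real.exp_pos _).le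
    (Finset.sum_nonneg fun x _ => (hK0 x).trans (hK x))
  apply Real.exp_le_exp.2
  have : a' * (n : ℝ) ≤ a * n := mul_le_mul_of_nonneg_right ha (Nat.cast_nonneg n)
  linarith

/-- uniform exponential decay on a set of inverse temperatures -/
def UDecay (d : ℕ) (S : Set ℝ) : Prop :=
  ∃ a : ℝ, 0 < a ∧ ∃ C : ℝ, ∃ K : Site d → Coupling d → ℝ,
    (∀ x, (∀ J, 0 ≤ K x J) ∧ Integrable (K x) (couplingLaw d) ∧
      ∫ J, K x J ∂(couplingLaw d) ≤ C) ∧
    ∀ᵐ J ∂(couplingLaw d), ∀ b ∈ S, DecaysAt (Pool.H47EA.gE b J) (fun x => K x J) a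

theorem UDecay.mono {S S' : Set ℝ} (h : UDecay d S') (hS : S ⊆ S') : UDecay d S := by
  obtain ⟨a, ha, C, K, hK, hD⟩ := h
  refine ⟨a, ha, C, K, hK, ?_⟩
  filter_upwards [hD] with J hJ b hb
  exact hJ b (hS hb)

theorem UDecay.union {S S' : Set ℝ} (h : UDecay d S) (h' : UDecay d S') :
    UDecay d (S ∪ S') := by
  obtain ⟨a, ha, C, K, hK, hD⟩ := h
  obtain ⟨a', ha', C', K', hK', hD'⟩ := h'
  refine ⟨min a a', lt_min ha ha', C + C', fun x J => K x J + K' x J, fun x => ⟨fun J => ?_,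
    (hK x).2.1.add (hK' x).2.1, ?_⟩, ?_⟩
  · exact add_nonneg ((hK x).1 J) ((hK' x).1 J)
  · rw [integral_add (hK x).2.1 (hK' x).2.1]
    exact add_le_add (hK x).2.2 (hK' x).2.2
  · filter_upwards [hD, hD'] with J h1 h2 b hb
    rcases hb with hb | hb
    · exact decaysAt_mono (h1 b hb) (fun x => by linarith [(hK' x).1 J]) (fun x => (hK x).1 J)
        (min_le_left _ _)
    · exact decaysAt_mono (h2 b hb) (fun x => by linarith [(hK x).1 J]) (fun x => (hK' x).1 J)
        (min_le_right _ _)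

theorem udecay_compact (hd : 1 ≤ d) {S : Set ℝ} (hS : IsCompact S) (hSp : S ⊆ phase d) :
    UDecay d S := by
  refine hS.induction_on (p := UDecay d) ?_ (fun S S' h h' => h'.mono h) (fun S S' h h' => h.union h')
    ?_
  · refine ⟨1, one_pos, 0, fun _ _ => 0, fun x => ⟨fun _ => le_rfl, integrable_zero _ _ _, ?_⟩, ?_⟩
    · simp
    · exact ae_of_all _ fun J b hb => absurd hb (notMem_empty b)
  · intro β hβ
    obtain ⟨n0, hn0, h⟩ := FS.exists_scale (hSp hβ)
    obtain ⟨ε, hε, a, ha, C, -, K, hK, hD⟩ := FS.local_main hd β hn0 h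
    refine ⟨Metric.ball β ε, mem_nhdsWithin_of_mem_nhds (Metric.ball_mem_nhds β hε),
      a, ha, C, K, hK, ?_⟩
    filter_upwards [hD] with J hJ b hb
    exact hJ b (by rwa [Metric.mem_ball, Real.dist_eq] at hb)

/-- uniform decay on `(0, β]` -/
theorem udecay_low (hd : 1 ≤ d) {β : ℝ} (hβ : Ioc 0 β ⊆ phase d) :
    UDecay d (Ioc 0 β) := by
  obtain ⟨c, hc, h⟩ := EA.main
  obtain ⟨K, hK, hJ⟩ := h d hd (fun _ => 1) (fun _ => ⟨zero_le_one, le_rfl⟩)
  have hd0 : (0 : ℝ) < d := by exact_mod_cast hd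
  set β1 : ℝ := c / √(d : ℝ) with hβ1
  have hβ10 : 0 < β1 := by positivity
  have h1 : UDecay d (Ioc 0 β1) := by
    refine ⟨1 / (8 * d), by positivity, 20000, K, hK, ?_⟩
    filter_upwards [hJ] with J hJ b hb
    have h1 := decaysAt_of (hJ b hb.1 hb.2 (fun _ => 1) (fun _ => by simp) (fun _ => 0))
    rwa [FS.gE_fun] at h1
  have h2 : UDecay d (Icc β1 β) :=
    udecay_compact hd isCompact_Icc fun b hb => hβ ⟨hβ10.trans_le hb.1, hb.2⟩
  refine (h1.union h2).mono fun b hb => ?_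
  rcases le_total b β1 with h3 | h3
  · exact Or.inl ⟨hb.1, h3⟩
  · exact Or.inr ⟨h3, hb.2⟩

theorem Zp_line (b : ℝ) (J : Coupling d) (Λ : Finset (Site d)) (ξ : Site d → Bool) :
    Zp (fun e => b * cpl 1 (fun _ => 1) (fun _ => 1) J e) (fun _ => 0) Λ ξ =
      Pool.H47EA.Zp b J Λ ξ := by
  unfold Zp Pool.H47EA.Zp
  refine Finset.sum_congr rfl fun η _ => ?_
  rw [ham_smul]
  congr 2
  unfold ham Pool.H47EA.ham
  simp only [zero_mul, Finset.sum_const_zero, add_zero]
  refine Finset.sum_congr rfl fun e _ => ?_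
  induction e using Sym2.ind with
  | _ x y =>
    show 1 * 1 * Jc J x y * 1 * 1 * (sg _ * sg _) = Jc J x y * sg _ * sg _
    ring

theorem cpl_line (b : ℝ) (m : Sym2 (Site d) → ℝ) (s : Site d → ℝ) (J : Coupling d) :
    (fun e => b * cpl 1 m s J e) = cpl b m s J := by
  funext e
  induction e using Sym2.ind with
  | _ x y =>
    show b * (1 * m s(x, y) * Jc J x y * s x * s y) = b * m s(x, y) * Jc J x y * s x * s y
    ring

theorem kap_props {K : Site d → Coupling d → ℝ} {C : ℝ}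
    (hK : ∀ x, (∀ J, 0 ≤ K x J) ∧ Integrable (K x) (couplingLaw d) ∧
      ∫ J, K x J ∂(couplingLaw d) ≤ C) (e : Sym2 (Site d)) :
    (∀ J, 0 ≤ kap (fun x => K x J) e) ∧
      Integrable (fun J => kap (fun x => K x J) e) (couplingLaw d) ∧
      ∫ J, kap (fun x => K x J) e ∂(couplingLaw d) ≤ 4 * C := by
  induction e using Sym2.ind with
  | _ x y =>
    refine ⟨fun J => ?_, ?_, ?_⟩
    · show 0 ≤ 2 * (K x J + K y J)
      have h1 := (hK x).1 J
      have h2 := (hK y).1 J
      positivity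
    · show Integrable (fun J => 2 * (K x J + K y J)) (couplingLaw d)
      exact ((hK x).2.1.add (hK y).2.1).const_mul 2
    · show ∫ J, 2 * (K x J + K y J) ∂(couplingLaw d) ≤ 4 * C
      rw [integral_const_mul, integral_add (hK x).2.1 (hK y).2.1]
      linarith [(hK x).2.2, (hK y).2.2]

end Pool.Agent.Helper79K9.SM
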