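import Pool.Agent.Helper79K9.SM.Defect

/-!
# Edwards–Anderson spin glass: the free energy of a defect is exponentially small

`Site`, `dist1` (graph distance), `Coupling`, `couplingLaw`, `edgesOf Λ` (the edges that meet `Λ`) and
the model of the question (`Pool.H47EA.Zp`, the partition function in a finite volume with a boundary
condition) are in `Pool.Agent.H47R2.EA.Defs`; the model with magnitudes `m_e ∈ [0,1]` and site
weights `s_x ∈ [-1,1]` (`cpl β m s J` are the couplings `β m_e J_e s_x s_y`; `Zp`, here without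
external field) in `Pool.Agent.Helper79K9.EA.Defs`; with `m = s = 1` it is the model of the question.
`FS.phase d` (in `Pool.Agent.Helper79K9.FS.A3`) is the set of the `β > 0` at which the expected
greatest influence of the boundary condition at distance at least `n` on the spin at a site decays
exponentially in `n`; it is open and contains `(0, c/√d]` (hand-in ExponentialMixingPhase).
-/

set_option autoImplicit false

open MeasureTheory Set

namespace Pool.Agent.Helper79K9.SM.DefectResult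

open Pool.H47EA (Site dist1 Coupling couplingLaw edgesOf)
open Pool.Agent.Helper79K9.EA (cpl Zp)

/-- `y` is outside `Λ`, next to `Λ` and has non-zero weight: the boundary condition at `y` counts. -/
def Boundary {d : ℕ} (s : Site d → ℝ) (Λ : Finset (Site d)) (y : Site d) : Prop :=
  y ∉ Λ ∧ s y ≠ 0 ∧ ∃ x ∈ Λ, dist1 x y = 1

/-- The boundary sites of `Λ` where `ω` and `ω'` agree are at distance at least `r` from the
boundary sites where they disagree. -/
def Separated {d : ℕ} (s : Site d → ℝ) (Λ : Finset (Site d)) (ω ω' : Site d → Bool) (r : ℕ) :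
    Prop :=
  ∀ y z, Boundary s Λ y → Boundary s Λ z → ω y = ω' y → ω z ≠ ω' z → r ≤ dist1 y z

/-- I. There is an absolute constant `c > 0` such that for all `d ≥ 1` and all magnitudes `m` there
are random `κ_e ≥ 0` of mean at most `80000` such that, for almost every realisation `J` of the
signs, simultaneously for all `β ∈ (0, c/√d]`, all site weights `s ∈ [-1,1]` (which may depend on
`J`), all finite `Λ`, all `n` and all boundary conditions `ω`, `ω'` such that the boundary sites
where they agree are at distance at least `2 n` from the boundary sites where they disagree: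
`|log Z_Λ^ω - log Z_Λ^ω'| ≤ β exp(-n/(8d)) ∑_{e meets Λ} κ_e(J)`.

II. In the model of the question: if exponential mixing holds at all inverse temperatures in
`(0, β₀]`, there are `a > 0` and random `κ_e ≥ 0` of bounded mean such that, almost surely,
simultaneously for all `β ∈ (0, β₀]` and all `Λ`, `n`, `ω`, `ω'` as above,
`|log Z_Λ^ω - log Z_Λ^ω'| ≤ β exp(-a n) ∑_{e meets Λ} κ_e(J)`. -/
theorem result :
    (∃ c : ℝ, 0 < c ∧ ∀ d : ℕ, 1 ≤ d → ∀ m : Sym2 (Site d) → ℝ, (∀ e, 0 ≤ m e ∧ m e ≤ 1) →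
      ∃ κ : Sym2 (Site d) → Coupling d → ℝ,
        (∀ e, (∀ J, 0 ≤ κ e J) ∧ Integrable (κ e) (couplingLaw d) ∧
          ∫ J, κ e J ∂(couplingLaw d) ≤ 80000) ∧
        ∀ᵐ J ∂(couplingLaw d), ∀ β : ℝ, 0 < β → β ≤ c / √(d : ℝ) →
          ∀ s : Site d → ℝ, (∀ x, |s x| ≤ 1) →
            ∀ (Λ : Finset (Site d)) (n : ℕ) (ω ω' : Site d → Bool),
              Separated s Λ ω ω' (2 * n) →
              |Real.log (Zp (cpl β m s J) (fun _ => 0) Λ ω) -
                Real.log (Zp (cpl β m s J) (fun _ => 0) Λ ω')| ≤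
                β * ((∑ e ∈ edgesOf Λ, κ e J) * Real.exp (-((n : ℝ) / (8 * d))))) ∧
    ∀ d : ℕ, 1 ≤ d → ∀ β₀ : ℝ, Ioc 0 β₀ ⊆ Pool.Agent.Helper79K9.FS.phase d →
      ∃ a : ℝ, 0 < a ∧ ∃ C : ℝ, ∃ κ : Sym2 (Site d) → Coupling d → ℝ,
        (∀ e, (∀ J, 0 ≤ κ e J) ∧ Integrable (κ e) (couplingLaw d) ∧
          ∫ J, κ e J ∂(couplingLaw d) ≤ C) ∧
        ∀ᵐ J ∂(couplingLaw d), ∀ β : ℝ, 0 < β → β ≤ β₀ →
          ∀ (Λ : Finset (Site d)) (n : ℕ) (ω ω' : Site d → Bool),
            Separated (fun _ => 1) Λ ω ω' (2 * n) →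
            |Real.log (Pool.H47EA.Zp β J Λ ω) - Real.log (Pool.H47EA.Zp β J Λ ω')| ≤
              β * ((∑ e ∈ edgesOf Λ, κ e J) * Real.exp (-(a * n))) := by
  refine ⟨?_, fun d hd β₀ hβ₀ => ?_⟩
  · obtain ⟨c, hc, hmain⟩ := Pool.Agent.Helper79K9.EA.main
    refine ⟨c, hc, fun d hd m hm => ?_⟩
    obtain ⟨K, hK, hJ⟩ := hmain d hd m hm
    refine ⟨fun e J => Pool.Agent.Helper79K9.SM.kap (fun x => K x J) e, fun e => ?_, ?_⟩
    · obtain ⟨h1, h2, h3⟩ := Pool.Agent.Helper79K9.SM.kap_props hK e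
      exact ⟨h1, h2, h3.trans (by norm_num)⟩
    · filter_upwards [hJ] with J hJ β hβ0 hβ s hs Λ n ω ω' hsep
      have key := Pool.Agent.Helper79K9.SM.defect (a := 1 / (8 * (d : ℝ)))
        (W := cpl 1 m s J) (fun x => (hK x).1 J) hβ0
        (Pool.Agent.Helper79K9.SM.cpl_le (by norm_num) hm hs J) (fun b hb => by
          rw [Pool.Agent.Helper79K9.SM.cpl_line]
          exact Pool.Agent.Helper79K9.SM.decaysAt_of
            (hJ b hb.1 (hb.2.le.trans hβ) s hs _)) Λ n ω ω'
        (Boundary s Λ) (fun x hx y hxy hy hW => ⟨hy, fun h0 => hW (by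
          show 1 * m s(x, y) * Pool.H47EA.Jc J x y * s x * s y = 0
          rw [h0, mul_zero]), x, hx, hxy⟩) hsep
      rw [Pool.Agent.Helper79K9.SM.cpl_line] at key
      have e1 : -(1 / (8 * (d : ℝ)) * n) = -((n : ℝ) / (8 * d)) := by ring
      rw [e1] at key
      exact key
  · obtain ⟨a, ha, C, K, hK, hJ⟩ := Pool.Agent.Helper79K9.SM.udecay_low hd hβ₀
    refine ⟨a, ha, 4 * C, fun e J => Pool.Agent.Helper79K9.SM.kap (fun x => K x J) e,
      Pool.Agent.Helper79K9.SM.kap_props hK, ?_⟩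
    filter_upwards [hJ] with J hJ β hβ0 hβ Λ n ω ω' hsep
    have key := Pool.Agent.Helper79K9.SM.defect (a := a)
      (W := cpl 1 (fun _ => 1) (fun _ => 1) J) (fun x => (hK x).1 J) hβ0
      (Pool.Agent.Helper79K9.SM.cpl_le (by norm_num) (fun _ => ⟨zero_le_one, le_rfl⟩)
        (fun _ => by norm_num) J) (fun b hb => by
        rw [Pool.Agent.Helper79K9.SM.cpl_line, Pool.Agent.Helper79K9.FS.gE_fun]
        exact hJ b ⟨hb.1, hb.2.le.trans hβ⟩) Λ n ω ω'
      (Boundary (fun _ => 1) Λ) (fun x hx y hxy hy _ => ⟨hy, one_ne_zero, x, hx, hxy⟩) hsep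
    rw [Pool.Agent.Helper79K9.SM.Zp_line, Pool.Agent.Helper79K9.SM.Zp_line] at key
    exact key

end Pool.Agent.Helper79K9.SM.DefectResult
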