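import Pool.Agent.Helper79K9.SM.Model

/-!
# Smoothness in the phase of exponential mixing and in all fields
-/

set_option autoImplicit false

open Set Filter Topology MeasureTheory
open scoped ContDiff

namespace Pool.Agent.Helper79K9.SM

open Pool.H47EA (Site dist1 Coupling couplingLaw Unit01 LocalOn)
open Pool.Agent.Helper79K9.EA
open Pool.Agent.Helper79K9.FS (DecaysAt phase gE_fun)

variable {d : ℕ}

theorem decaysAt_of {g : Finset (Site d) → (Site d → Bool) → ((Site d → Bool) → ℝ) → ℝ}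
    {K : Site d → ℝ} (h : Decays g K) : DecaysAt g K (1 / (8 * d)) := by
  intro A Λ f hf hfA n ξ ξ' hA
  have h2 := h A Λ f hf hfA n ξ ξ' hA
  have e : -(1 / (8 * (d : ℝ)) * n) = -((n : ℝ) / (8 * d)) := by ring
  rw [e]
  exact h2

/-- averages over the signs, from the almost sure statement -/
theorem average (a : ℝ) (ha : 0 < a) (p q : ℝ) (m : Sym2 (Site d) → ℝ)
    (hm : ∀ e, 0 ≤ m e ∧ m e ≤ 1) (s h h' : Site d → ℝ) (hs : ∀ x, |s x| ≤ 1)
    (hh' : ∀ x, |h' x| ≤ 1) (β b : ℝ) (hb : |b| ≤ 1) (K : Site d → Coupling d → ℝ)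
    (hK : ∀ x, (∀ J, 0 ≤ K x J) ∧ Integrable (K x) (couplingLaw d))
    (hD : ∀ᵐ J ∂(couplingLaw d), ∀ t ∈ Ioo p q,
      DecaysAt (gE (cpl (β + t * b) m s J) (fun x => h x + t * h' x)) (fun x => K x J) a)
    (π : Coupling d → ℝ → Measure (Site d → Bool))
    (hπ : ∀ᵐ J ∂(couplingLaw d), ∀ t ∈ Ioo p q,
      IsGibbs (cpl (β + t * b) m s J) (fun x => h x + t * h' x) (π J t))
    (A : Finset (Site d)) (f : (Site d → Bool) → ℝ) (hf : Unit01 f) (hfA : LocalOn A f) :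
    ContDiffOn ℝ ∞ (fun t => ∫ J, ∫ σ, f σ ∂(π J t) ∂(couplingLaw d)) (Ioo p q) := by
  obtain ⟨C, -, hC⟩ := model_smooth a ha d A.card
  have key : ∀ᵐ J ∂(couplingLaw d), (∀ k, ∀ t ∈ Ioo p q,
        HasDerivAt (iteratedDeriv k (fun t => ∫ σ, f σ ∂(π J t)))
          (iteratedDeriv (k + 1) (fun t => ∫ σ, f σ ∂(π J t)) t) t) ∧
      (∀ k, ∀ t ∈ Ioo p q, Tendsto (fun n => iteratedDeriv k (fun t =>
          gE (fun e => cpl β m s J e + t * cpl b m s J e) (fun x => h x + t * h' x)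
            (vol A n) (fun _ => true) f) t)
        atTop (𝓝 (iteratedDeriv k (fun t => ∫ σ, f σ ∂(π J t)) t))) ∧
      ∀ k r, 0 < r → ∀ t ∈ Icc (p + r) (q - r),
        |iteratedDeriv k (fun t => ∫ σ, f σ ∂(π J t)) t| ≤ C k r * (1 + ∑ x ∈ A, K x J) := by
    filter_upwards [hD, hπ] with J hJ hπJ
    simp only [cpl_affine] at hJ hπJ
    exact (hC p q (cpl β m s J) (cpl b m s J) h h' (cpl_le hb hm hs J) hh' (fun x => K x J)
      (fun x => (hK x).1 J) hJ (π J) hπJ A f le_rfl hf hfA).2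
  refine (smooth_average (couplingLaw d) p q (fun J t => ∫ σ, f σ ∂(π J t))
    (fun J => 1 + ∑ x ∈ A, K x J) ?_ C ?_ ?_).1
  · exact (integrable_const 1).add (integrable_finset_sum _ fun x _ => (hK x).2)
  · filter_upwards [key] with J hJ
    exact ⟨hJ.1, hJ.2.2⟩
  · intro k t ht
    refine aestronglyMeasurable_of_tendsto_ae atTop
      (fun n => (meas_iter k β b m s h h' (vol A n) (fun _ => true) f t).aestronglyMeasurable) ?_
    filter_upwards [key] with J hJ
    exact hJ.2.1 k t ht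

/-- locally uniform decay in the phase, almost surely simultaneously -/
theorem ae_phase_local (hd : 1 ≤ d) : ∀ᵐ J ∂(couplingLaw d), ∀ β ∈ phase d, ∃ p q : ℝ,
    β ∈ Ioo p q ∧ ∃ (K : Site d → ℝ) (a : ℝ), 0 < a ∧ (∀ x, 0 ≤ K x) ∧
      ∀ b ∈ Ioo p q, DecaysAt (Pool.H47EA.gE b J) K a := by
  set Q : ℚ × ℚ → Prop := fun q => ∀ᵐ J ∂(couplingLaw d),
    ∃ (K : Site d → ℝ) (a : ℝ), 0 < a ∧ (∀ x, 0 ≤ K x) ∧
      ∀ b ∈ Ioo (q.1 : ℝ) q.2, DecaysAt (Pool.H47EA.gE b J) K a with hQ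
  have h1 : ∀ᵐ J ∂(couplingLaw d), ∀ q : ℚ × ℚ, Q q →
      ∃ (K : Site d → ℝ) (a : ℝ), 0 < a ∧ (∀ x, 0 ≤ K x) ∧
        ∀ b ∈ Ioo (q.1 : ℝ) q.2, DecaysAt (Pool.H47EA.gE b J) K a := by
    rw [ae_all_iff]
    intro q
    by_cases hq : Q q
    · filter_upwards [hq] with J hJ _
      exact hJ
    · exact ae_of_all _ fun J h => absurd h hq
  filter_upwards [h1] with J hJ β hβ
  obtain ⟨n0, hn0, h⟩ := FS.exists_scale hβ
  obtain ⟨ε, hε, a, ha, C, -, K, hK, hD⟩ := FS.local_main hd β hn0 h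
  obtain ⟨q1, hq1, hq1'⟩ := exists_rat_btwn (show β - ε < β by linarith)
  obtain ⟨q2, hq2, hq2'⟩ := exists_rat_btwn (show β < β + ε by linarith)
  refine ⟨q1, q2, ⟨hq1', hq2⟩, hJ (q1, q2) ?_⟩
  simp only [hQ]
  filter_upwards [hD] with J hJ
  refine ⟨fun x => K x J, a, ha, fun x => (hK x).1 J, fun b hb => hJ b ?_⟩
  rw [abs_lt]
  constructor <;> linarith [hb.1, hb.2]

theorem gibbs_line (β : ℝ) (J : Coupling d) (π : Measure (Site d → Bool)) :
    IsGibbs (fun e => cpl 0 (fun _ => 1) (fun _ => 1) J e + β * cpl 1 (fun _ => 1) (fun _ => 1) J e)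
      (fun x => (0 : ℝ) + β * 0) π ↔ Pool.H47EA.IsGibbs β J π := by
  have e1 : (fun e => cpl 0 (fun _ => 1) (fun _ => 1) J e +
      β * cpl 1 (fun _ => 1) (fun _ => 1) J e) = cpl β (fun _ => 1) (fun _ => 1) J := by
    rw [← cpl_affine]; simp
  rw [e1]
  simp only [mul_zero, add_zero]
  exact isGibbs_iff β J π

theorem gE_line (β : ℝ) (J : Coupling d) :
    gE (fun e => cpl 0 (fun _ => 1) (fun _ => 1) J e + β * cpl 1 (fun _ => 1) (fun _ => 1) J e)
      (fun x => (0 : ℝ) + β * 0) = Pool.H47EA.gE β J := by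
  have e1 : (fun e => cpl 0 (fun _ => 1) (fun _ => 1) J e +
      β * cpl 1 (fun _ => 1) (fun _ => 1) J e) = cpl β (fun _ => 1) (fun _ => 1) J := by
    rw [← cpl_affine]; simp
  rw [e1]
  simp only [mul_zero, add_zero]
  exact gE_fun β J

/-- smoothness on the phase, almost surely -/
theorem phase_smooth (hd : 1 ≤ d) : ∀ᵐ J ∂(couplingLaw d),
    ∀ π : ℝ → Measure (Site d → Bool), (∀ β ∈ phase d, Pool.H47EA.IsGibbs β J (π β)) →
      ∀ (A : Finset (Site d)) (f : (Site d → Bool) → ℝ), Unit01 f → LocalOn A f →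
        ContDiffOn ℝ ∞ (fun β => ∫ σ, f σ ∂(π β)) (phase d) := by
  filter_upwards [ae_phase_local hd] with J hJ π hπ A f hf hfA β hβ
  obtain ⟨p, q, hpq, K, a, ha, hK, hD⟩ := hJ β hβ
  obtain ⟨ε, hε, hball⟩ := Metric.isOpen_iff.1 (FS.isOpen_phase hd) β hβ
  set p' := max p (β - ε) with hp'
  set q' := min q (β + ε) with hq'
  have hβ' : β ∈ Ioo p' q' :=
    ⟨max_lt hpq.1 (by linarith), lt_min hpq.2 (by linarith)⟩
  obtain ⟨C, -, hC⟩ := model_smooth a ha d A.card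
  have h1 := (hC p' q' (cpl 0 (fun _ => 1) (fun _ => 1) J) (cpl 1 (fun _ => 1) (fun _ => 1) J)
    (fun _ => 0) (fun _ => 0) (cpl_le (by norm_num) (fun _ => ⟨zero_le_one, le_rfl⟩)
      (fun _ => by norm_num) J) (fun _ => by norm_num) K hK (fun t ht => by
        rw [gE_line]
        exact hD t ⟨(le_max_left _ _).trans_lt ht.1, ht.2.trans_le (min_le_left _ _)⟩) π
    (fun t ht => by
      rw [gibbs_line]
      refine hπ t (hball ?_)
      have h2 := (le_max_right p (β - ε)).trans_lt ht.1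
      have h3 := ht.2.trans_le (min_le_right q (β + ε))
      rw [Metric.mem_ball, Real.dist_eq, abs_lt]
      constructor <;> linarith) A f le_rfl hf hfA).1
  exact (h1.contDiffAt (isOpen_Ioo.mem_nhds hβ')).contDiffWithinAt

/-- smoothness of the quenched averages on the phase -/
theorem phase_average (hd : 1 ≤ d) (π : Coupling d → ℝ → Measure (Site d → Bool))
    (hπ : ∀ᵐ J ∂(couplingLaw d), ∀ β ∈ phase d, Pool.H47EA.IsGibbs β J (π J β))
    (A : Finset (Site d)) (f : (Site d → Bool) → ℝ) (hf : Unit01 f) (hfA : LocalOn A f) :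
    ContDiffOn ℝ ∞ (fun β => ∫ J, ∫ σ, f σ ∂(π J β) ∂(couplingLaw d)) (phase d) := by
  intro β hβ
  obtain ⟨n0, hn0, h⟩ := FS.exists_scale hβ
  obtain ⟨ε, hε, a, ha, C, -, K, hK, hD⟩ := FS.local_main hd β hn0 h
  obtain ⟨ε', hε', hball⟩ := Metric.isOpen_iff.1 (FS.isOpen_phase hd) β hβ
  set p := max (β - ε) (β - ε') with hp
  set q := min (β + ε) (β + ε') with hq
  have hβ' : β ∈ Ioo p q :=
    ⟨max_lt (by linarith) (by linarith), lt_min (by linarith) (by linarith)⟩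
  have h1 := average a ha p q (fun _ => 1) (fun _ => ⟨zero_le_one, le_rfl⟩) (fun _ => 1)
    (fun _ => 0) (fun _ => 0) (fun _ => by norm_num) (fun _ => by norm_num) 0 1 (by norm_num) K
    (fun x => ⟨(hK x).1, (hK x).2.1⟩) (by
      filter_upwards [hD] with J hJ t ht
      have h2 := (le_max_left (β - ε) (β - ε')).trans_lt ht.1
      have h3 := ht.2.trans_le (min_le_left (β + ε) (β + ε'))
      rw [cpl_affine, gE_line]
      refine hJ t ?_
      rw [abs_lt]
      constructor <;> linarith) π (by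
      filter_upwards [hπ] with J hJ t ht
      have h2 := (le_max_right (β - ε) (β - ε')).trans_lt ht.1
      have h3 := ht.2.trans_le (min_le_right (β + ε) (β + ε'))
      rw [cpl_affine, gibbs_line]
      refine hJ t (hball ?_)
      rw [Metric.mem_ball, Real.dist_eq, abs_lt]
      constructor <;> linarith) A f hf hfA
  exact (h1.contDiffAt (isOpen_Ioo.mem_nhds hβ')).contDiffWithinAt

end Pool.Agent.Helper79K9.SM
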