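import Mathlib

/-!
# Interpolation of derivatives and smooth limits
-/

set_option autoImplicit false

open Set Filter Topology
open scoped ContDiff

namespace Pool.Agent.Helper79K9.SM

/-! ### finite exponential families -/

/-- average in a finite exponential family -/
noncomputable def eav {ι : Type} [Fintype ι] (w a f : ι → ℝ) (t : ℝ) : ℝ :=
  (∑ i, Real.exp (w i + t * a i) * f i) / ∑ i, Real.exp (w i + t * a i)

section eav

variable {ι : Type} [Fintype ι] [Nonempty ι] (w a f : ι → ℝ)

theorem eav_den_pos (t : ℝ) : 0 < ∑ i, Real.exp (w i + t * a i) :=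
  Finset.sum_pos (fun _ _ => Real.exp_pos _) Finset.univ_nonempty

theorem eav_smooth : ContDiff ℝ ∞ (eav w a f) := by
  unfold eav
  refine ContDiff.div ?_ ?_ fun t => (eav_den_pos w a t).ne'
  · exact ContDiff.sum fun i _ => by fun_prop
  · exact ContDiff.sum fun i _ => by fun_prop

theorem eav_hasDerivAt (t : ℝ) :
    HasDerivAt (eav w a f) (eav w a (fun i => a i * f i) t - eav w a f t * eav w a a t) t := by
  have hN : HasDerivAt (fun t => ∑ i, Real.exp (w i + t * a i) * f i)
      (∑ i, Real.exp (w i + t * a i) * (a i * f i)) t := by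
    refine HasDerivAt.fun_sum fun i _ => ?_
    have h1 : HasDerivAt (fun t => w i + t * a i) (a i) t := by
      simpa using ((hasDerivAt_id t).mul_const (a i)).const_add (w i)
    have := (h1.exp).mul_const (f i)
    convert! this using 1
    ring
  have hD : HasDerivAt (fun t => ∑ i, Real.exp (w i + t * a i))
      (∑ i, Real.exp (w i + t * a i) * a i) t := by
    refine HasDerivAt.fun_sum fun i _ => ?_
    have h1 : HasDerivAt (fun t => w i + t * a i) (a i) t := by
      simpa using ((hasDerivAt_id t).mul_const (a i)).const_add (w i)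
    exact h1.exp
  have h0 := (eav_den_pos w a t).ne'
  have := hN.fun_div hD h0
  refine this.congr_deriv ?_
  unfold eav
  field_simp

theorem eav_abs_le {B : ℝ} (hf : ∀ i, |f i| ≤ B) (t : ℝ) : |eav w a f t| ≤ B := by
  have h0 := eav_den_pos w a t
  unfold eav
  rw [abs_div, abs_of_pos h0, div_le_iff₀ h0]
  refine (Finset.abs_sum_le_sum_abs _ _).trans ?_
  rw [Finset.mul_sum]
  refine Finset.sum_le_sum fun i _ => ?_
  rw [abs_mul, abs_of_pos (Real.exp_pos _), mul_comm B]
  exact mul_le_mul_of_nonneg_left (hf i) (Real.exp_pos _).le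

end eav

/-- all derivatives are bounded by powers of the size of the exponents -/
theorem eav_bound (k : ℕ) : ∃ c : ℝ, 0 ≤ c ∧ ∀ (ι : Type) [Fintype ι] [Nonempty ι]
    (w a f : ι → ℝ) (M B : ℝ), 0 ≤ M → 0 ≤ B → (∀ i, |a i| ≤ M) → (∀ i, |f i| ≤ B) →
    ∀ j ≤ k, ∀ t, |iteratedDeriv j (eav w a f) t| ≤ c * B * M ^ j := by
  induction k with
  | zero =>
    refine ⟨1, zero_le_one, fun ι _ _ w a f M B hM hB ha hf j hj t => ?_⟩
    obtain rfl : j = 0 := by omega
    rw [iteratedDeriv_zero]
    simpa using eav_abs_le w a f hf t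
  | succ k ih =>
    obtain ⟨c, hc, ih⟩ := ih
    refine ⟨c + 2 ^ k * c ^ 2, by positivity, fun ι _ _ w a f M B hM hB ha hf j hj t => ?_⟩
    rcases Nat.lt_or_ge k j with hjk | hjk
    · obtain rfl : j = k + 1 := by omega
      rw [iteratedDeriv_succ']
      have e1 : deriv (eav w a f) = fun t => eav w a (fun i => a i * f i) t -
          eav w a f t * eav w a a t := by
        funext t
        exact (eav_hasDerivAt w a f t).deriv
      have s1 : ∀ f : ι → ℝ, ContDiffAt ℝ (k : ℕ∞ω) (eav w a f) t := fun f =>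
        ((eav_smooth w a f).contDiffAt).of_le (by exact_mod_cast le_top)
      rw [e1, iteratedDeriv_fun_sub (s1 _) ((s1 _).mul (s1 _)),
        iteratedDeriv_fun_mul (s1 _) (s1 _)]
      have b1 : |iteratedDeriv k (eav w a fun i => a i * f i) t| ≤ c * (M * B) * M ^ k :=
        ih ι w a (fun i => a i * f i) M (M * B) hM (by positivity) ha (fun i => by
          rw [abs_mul]
          exact mul_le_mul (ha i) (hf i) (abs_nonneg _) hM) k le_rfl t
      have b2 : |∑ i ∈ Finset.range (k + 1), (k.choose i : ℝ) * iteratedDeriv i (eav w a f) t *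
          iteratedDeriv (k - i) (eav w a a) t| ≤
          ∑ i ∈ Finset.range (k + 1), (k.choose i : ℝ) * (c ^ 2 * B * M ^ (k + 1)) := by
        refine (Finset.abs_sum_le_sum_abs _ _).trans (Finset.sum_le_sum fun i hi => ?_)
        have hik : i ≤ k := by
          have := Finset.mem_range.1 hi
          omega
        rw [abs_mul, abs_mul, abs_of_nonneg (Nat.cast_nonneg _ : (0 : ℝ) ≤ k.choose i)]
        have h1 := ih ι w a f M B hM hB ha hf i hik t
        have h2 := ih ι w a a M M hM hM ha ha (k - i) (by omega) t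
        calc (k.choose i : ℝ) * |iteratedDeriv i (eav w a f) t| *
              |iteratedDeriv (k - i) (eav w a a) t| ≤
              (k.choose i : ℝ) * (c * B * M ^ i) * (c * M * M ^ (k - i)) := by gcongr
          _ = (k.choose i : ℝ) * (c ^ 2 * B * (M ^ i * M ^ (k - i) * M)) := by ring
          _ = _ := by
            rw [← pow_add, Nat.add_sub_cancel' hik, ← pow_succ]
      have b3 : ∑ i ∈ Finset.range (k + 1), (k.choose i : ℝ) * (c ^ 2 * B * M ^ (k + 1)) =
          2 ^ k * (c ^ 2 * B * M ^ (k + 1)) := by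
        rw [← Finset.sum_mul]
        congr 1
        exact_mod_cast Nat.sum_range_choose k
      rw [b3] at b2
      calc _ ≤ |iteratedDeriv k (eav w a fun i => a i * f i) t| +
            |∑ i ∈ Finset.range (k + 1), (k.choose i : ℝ) * iteratedDeriv i (eav w a f) t *
              iteratedDeriv (k - i) (eav w a a) t| := abs_sub _ _
        _ ≤ c * (M * B) * M ^ k + 2 ^ k * (c ^ 2 * B * M ^ (k + 1)) := add_le_add b1 b2
        _ = _ := by ring
    · have := ih ι w a f M B hM hB ha hf j hjk t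
      refine this.trans ?_
      have : 0 ≤ 2 ^ k * c ^ 2 := by positivity
      gcongr
      linarith

/-! ### interpolation -/

theorem deriv_le {h h' h'' : ℝ → ℝ} {t s A D : ℝ} (hs : 0 < s)
    (h1 : ∀ y ∈ Icc t (t + s), HasDerivAt h (h' y) y)
    (h2 : ∀ y ∈ Icc t (t + s), HasDerivAt h' (h'' y) y) (hA : |h t| ≤ A) (hA' : |h (t + s)| ≤ A)
    (hD : ∀ y ∈ Icc t (t + s), |h'' y| ≤ D) : |h' t| ≤ 2 * A / s + s * D := by
  obtain ⟨ξ, hξ, e1⟩ := exists_hasDerivAt_eq_slope h h' (show t < t + s by linarith)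
    (fun y hy => (h1 y hy).continuousAt.continuousWithinAt)
    (fun y hy => h1 y (Ioo_subset_Icc_self hy))
  obtain ⟨ζ, hζ, e2⟩ := exists_hasDerivAt_eq_slope h' h'' hξ.1
    (fun y hy => (h2 y ⟨hy.1, hy.2.trans hξ.2.le⟩).continuousAt.continuousWithinAt)
    (fun y hy => h2 y ⟨hy.1.le, (hy.2.trans hξ.2).le⟩)
  have hD0 : 0 ≤ D := (abs_nonneg _).trans (hD t ⟨le_rfl, by linarith⟩)
  have h3 : |h' ξ| ≤ 2 * A / s := by
    rw [e1, add_sub_cancel_left, abs_div, abs_of_pos hs]
    apply div_le_div_of_nonneg_right _ hs.le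
    calc |h (t + s) - h t| ≤ |h (t + s)| + |h t| := abs_sub _ _
      _ ≤ 2 * A := by linarith
  have hξt : 0 < ξ - t := by linarith [hξ.1]
  have h4 : |h' ξ - h' t| ≤ s * D := by
    have e3 : h' ξ - h' t = h'' ζ * (ξ - t) := by
      rw [e2]; field_simp
    rw [e3, abs_mul, abs_of_pos hξt, mul_comm]
    have := hD ζ ⟨hζ.1.le, (hζ.2.trans hξ.2).le⟩
    have h5 : ξ - t ≤ s := by linarith [hξ.2]
    gcongr
  have : h' t = h' ξ - (h' ξ - h' t) := by ring
  rw [this]
  exact (abs_sub _ _).trans (add_le_add h3 h4)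

theorem hasDerivAt_iter {g : ℝ → ℝ} (hg : ContDiff ℝ ∞ g) (k : ℕ) (t : ℝ) :
    HasDerivAt (iteratedDeriv k g) (iteratedDeriv (k + 1) g t) t := by
  rw [iteratedDeriv_succ]
  refine DifferentiableAt.hasDerivAt ?_
  exact (hg.differentiable_iteratedDeriv k (by exact_mod_cast WithTop.coe_lt_top _)) t

/-- interpolation between smallness and bounds for all derivatives -/
theorem interp (B : ℕ → ℝ) (hB : ∀ j, 0 ≤ B j) (k : ℕ) : ∀ r : ℝ, 0 < r →
    ∃ C : ℝ, 0 ≤ C ∧ ∀ (p q : ℝ) (g : ℝ → ℝ) (x M : ℝ), 0 ≤ x → 1 ≤ M → ContDiff ℝ ∞ g →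
      (∀ j, ∀ t ∈ Ioo p q, |iteratedDeriv j g t| ≤ B j * M ^ j) →
      (∀ t ∈ Ioo p q, |g t| ≤ Real.exp (-x)) →
      ∀ t ∈ Icc (p + r) (q - r),
        |iteratedDeriv k g t| ≤ C * Real.exp (-(x / 2 ^ k)) * M ^ (k + 1) := by
  induction k with
  | zero =>
    intro r hr
    refine ⟨1, zero_le_one, fun p q g x M hx hM hg hj h0 t ht => ?_⟩
    rw [iteratedDeriv_zero]
    have h1 := h0 t ⟨by linarith [ht.1], by linarith [ht.2]⟩
    simp only [pow_zero, div_one, zero_add, pow_one, one_mul]
    have : 0 < Real.exp (-x) := Real.exp_pos _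
    nlinarith
  | succ k ih =>
    intro r hr
    obtain ⟨C, hC, ih⟩ := ih (r / 2) (by linarith)
    refine ⟨4 * C / r + r / 2 * B (k + 2), by
      have := hB (k + 2)
      positivity, fun p q g x M hx hM hg hj h0 t ht => ?_⟩
    set E := Real.exp (-(x / 2 ^ (k + 1))) with hE
    have hE0 : 0 < E := Real.exp_pos _
    have hE1 : E ≤ 1 := by
      rw [hE, Real.exp_le_one_iff]
      have : 0 ≤ x / 2 ^ (k + 1) := by positivity
      linarith
    have hEE : Real.exp (-(x / 2 ^ k)) = E * E := by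
      rw [hE, ← Real.exp_add]
      congr 1
      rw [pow_succ]
      field_simp
      ring
    set s := r / 2 * E with hs
    have hs0 : 0 < s := by positivity
    have hsr : s ≤ r / 2 := by
      rw [hs]; nlinarith
    have hM0 : 0 < M := by linarith
    have key := deriv_le (h := iteratedDeriv k g) (h' := iteratedDeriv (k + 1) g)
      (h'' := iteratedDeriv (k + 2) g) (t := t) (s := s)
      (A := C * (E * E) * M ^ (k + 1)) (D := B (k + 2) * M ^ (k + 2)) hs0
      (fun y _ => hasDerivAt_iter hg k y) (fun y _ => hasDerivAt_iter hg (k + 1) y)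
      (by
        rw [← hEE]
        exact ih p q g x M hx hM hg hj h0 t ⟨by linarith [ht.1], by linarith [ht.2]⟩)
      (by
        rw [← hEE]
        exact ih p q g x M hx hM hg hj h0 (t + s) ⟨by linarith [ht.1], by linarith [ht.2]⟩)
      (fun y hy => hj (k + 2) y ⟨by linarith [hy.1, ht.1], by linarith [hy.2, ht.2]⟩)
    refine key.trans ?_
    have e1 : 2 * (C * (E * E) * M ^ (k + 1)) / s = 4 * C / r * E * M ^ (k + 1) := by
      rw [hs]; field_simp; ring
    have e2 : s * (B (k + 2) * M ^ (k + 2)) = r / 2 * B (k + 2) * E * M ^ (k + 2) := by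
      rw [hs]; ring
    rw [e1, e2]
    have hp : M ^ (k + 1) ≤ M ^ (k + 1 + 1) := pow_le_pow_right₀ hM (by omega)
    have h5 : 0 ≤ 4 * C / r * E := by positivity
    calc 4 * C / r * E * M ^ (k + 1) + r / 2 * B (k + 2) * E * M ^ (k + 2) ≤
          4 * C / r * E * M ^ (k + 1 + 1) + r / 2 * B (k + 2) * E * M ^ (k + 1 + 1) := by
          gcongr
      _ = _ := by ring

/-! ### smooth limits -/

theorem contDiffOn_of_seq {s : Set ℝ} (hs : IsOpen s) (U : ℕ → ℝ → ℝ)
    (hU : ∀ k, ∀ t ∈ s, HasDerivAt (U k) (U (k + 1) t) t) (k : ℕ) : ContDiffOn ℝ ∞ (U k) s := by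
  rw [contDiffOn_infty]
  intro n
  induction n generalizing k with
  | zero =>
    rw [Nat.cast_zero, contDiffOn_zero]
    exact fun t ht => (hU k t ht).continuousAt.continuousWithinAt
  | succ n ih =>
    rw [Nat.cast_succ, contDiffOn_succ_iff_deriv_of_isOpen hs]
    refine ⟨fun t ht => (hU k t ht).differentiableAt.differentiableWithinAt, ?_, ?_⟩
    · intro h
      exact absurd h (by simp)
    · exact (ih (k + 1)).congr fun t ht => (hU k t ht).deriv

theorem iteratedDeriv_of_seq {s : Set ℝ} (hs : IsOpen s) (U : ℕ → ℝ → ℝ)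
    (hU : ∀ k, ∀ t ∈ s, HasDerivAt (U k) (U (k + 1) t) t) (k : ℕ) :
    ∀ t ∈ s, iteratedDeriv k (U 0) t = U k t := by
  induction k with
  | zero => intro t _; rw [iteratedDeriv_zero]
  | succ k ih =>
    intro t ht
    rw [iteratedDeriv_succ]
    have h1 : iteratedDeriv k (U 0) =ᶠ[𝓝 t] U k := by
      filter_upwards [hs.mem_nhds ht] with y hy
      exact ih y hy
    rw [h1.deriv_eq]
    exact (hU k t ht).deriv

end Pool.Agent.Helper79K9.SM
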