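import Pool.Agent.Helper79K9.SM.Interp

/-!
# Smooth limits and averages
-/

set_option autoImplicit false

open Set Filter Topology MeasureTheory
open scoped ContDiff

namespace Pool.Agent.Helper79K9.SM

theorem summ (Cm b : ℝ) (e k : ℕ) (hb : 0 < b) :
    Summable fun n : ℕ => Real.exp (-(b * n)) * (Cm * ((n : ℝ) + 2) ^ e) ^ k := by
  have h1 := (summable_nat_add_iff 2).2 (Real.summable_pow_mul_exp_neg_nat_mul (e * k) hb)
  refine (h1.mul_left (Real.exp (2 * b) * Cm ^ k)).congr fun n => ?_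
  push_cast
  rw [mul_pow, ← pow_mul]
  have : Real.exp (-(b * n)) = Real.exp (2 * b) * Real.exp (-b * (n + 2)) := by
    rw [← Real.exp_add]; congr 1; ring
  rw [this]
  ring

/-- the constant -/
theorem smooth_limit (B : ℕ → ℝ) (hB : ∀ j, 0 ≤ B j) (a : ℝ) (ha : 0 < a) (Cm : ℝ)
    (hCm : 1 ≤ Cm) (e : ℕ) :
    ∃ C : ℕ → ℝ → ℝ, (∀ k r, 0 ≤ C k r) ∧ ∀ (p q : ℝ) (G : ℕ → ℝ → ℝ) (F : ℝ → ℝ) (K : ℝ), 1 ≤ K →
      (∀ n, ContDiff ℝ ∞ (G n)) →
      (∀ n j, ∀ t ∈ Ioo p q, |iteratedDeriv j (G n) t| ≤ B j * (Cm * ((n : ℝ) + 1) ^ e) ^ j) →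
      (∀ n, ∀ t ∈ Ioo p q, |G (n + 1) t - G n t| ≤ K * Real.exp (-(a * n))) →
      (∀ n, ∀ t ∈ Ioo p q, |G (n + 1) t - G n t| ≤ 1) →
      (∀ t ∈ Ioo p q, Tendsto (fun n => G n t) atTop (𝓝 (F t))) →
      ContDiffOn ℝ ∞ F (Ioo p q) ∧
      (∀ k, ∀ t ∈ Ioo p q, HasDerivAt (iteratedDeriv k F) (iteratedDeriv (k + 1) F t) t) ∧
      (∀ k, ∀ t ∈ Ioo p q, Tendsto (fun n => iteratedDeriv k (G n) t) atTop
        (𝓝 (iteratedDeriv k F t))) ∧
      ∀ k r, 0 < r → ∀ t ∈ Icc (p + r) (q - r), |iteratedDeriv k F t| ≤ C k r * K := by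
  classical
  choose CI hCI0 hCI using fun (k : ℕ) (r : {r : ℝ // 0 < r}) =>
    interp (fun j => 2 * B j) (fun j => mul_nonneg zero_le_two (hB j)) k r.1 r.2
  set S : ℕ → ℝ := fun k => ∑' n : ℕ, Real.exp (-(a / 2 ^ k * n)) *
    (Cm * ((n : ℝ) + 2) ^ e) ^ (k + 1) with hS
  have hsum : ∀ k : ℕ, Summable fun n : ℕ => Real.exp (-(a / 2 ^ k * n)) *
    (Cm * ((n : ℝ) + 2) ^ e) ^ (k + 1) := fun k => summ Cm _ e (k + 1) (by positivity)
  have hS0 : ∀ k, 0 ≤ S k := fun k => tsum_nonneg fun n => by positivity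
  refine ⟨fun k r => if hr : 0 < r then B k * Cm ^ k + CI k ⟨r, hr⟩ * S k else 0, ?_, ?_⟩
  · intro k r
    dsimp only
    split_ifs with hr
    · have := hCI0 k ⟨r, hr⟩
      have := hB k
      have := hS0 k
      positivity
    · exact le_rfl
  intro p q G F K hK hG hGj hGK hG1 hF
  set g : ℕ → ℝ → ℝ := fun n t => G (n + 1) t - G n t with hg
  have hgs : ∀ n, ContDiff ℝ ∞ (g n) := fun n => (hG (n + 1)).sub (hG n)
  have hgi : ∀ n k t, iteratedDeriv k (g n) t =
      iteratedDeriv k (G (n + 1)) t - iteratedDeriv k (G n) t := by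
    intro n k t
    rw [hg]
    refine iteratedDeriv_fun_sub ?_ ?_
    · exact ((hG (n + 1)).contDiffAt).of_le (by exact_mod_cast le_top)
    · exact ((hG n).contDiffAt).of_le (by exact_mod_cast le_top)
  have hlogK : 0 ≤ Real.log K := Real.log_nonneg hK
  have hK0 : 0 < K := by linarith
  -- bounds for the terms
  have hterm : ∀ (k : ℕ) (r : ℝ) (hr : 0 < r) (n : ℕ), ∀ t ∈ Icc (p + r) (q - r),
      |iteratedDeriv k (g n) t| ≤ CI k ⟨r, hr⟩ * K * (Real.exp (-(a / 2 ^ k * n)) *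
        (Cm * ((n : ℝ) + 2) ^ e) ^ (k + 1)) := by
    intro k r hr n t ht
    set x : ℝ := max 0 (a * n - Real.log K) with hx
    have hM : 1 ≤ Cm * ((n : ℝ) + 2) ^ e := by
      have : (1 : ℝ) ≤ ((n : ℝ) + 2) ^ e := one_le_pow₀ (by
        have : (0 : ℝ) ≤ n := Nat.cast_nonneg n
        linarith)
      nlinarith
    have h1 := hCI k ⟨r, hr⟩ p q (g n) x (Cm * ((n : ℝ) + 2) ^ e) (le_max_left _ _) hM (hgs n)
      (fun j t ht => by
        rw [hgi]
        refine (abs_sub _ _).trans ?_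
        have b1 := hGj (n + 1) j t ht
        have b2 := hGj n j t ht
        have m1 : (Cm * (((n + 1 : ℕ) : ℝ) + 1) ^ e) ^ j = (Cm * ((n : ℝ) + 2) ^ e) ^ j := by
          push_cast; ring_nf
        have m2 : (Cm * ((n : ℝ) + 1) ^ e) ^ j ≤ (Cm * ((n : ℝ) + 2) ^ e) ^ j := by
          gcongr; norm_num
        rw [m1] at b1
        have := mul_le_mul_of_nonneg_left m2 (hB j)
        linarith)
      (fun t ht => by
        rcases le_total 0 (a * n - Real.log K) with h | h
        · rw [hx, max_eq_right h]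
          refine (hGK n t ht).trans (le_of_eq ?_)
          rw [neg_sub, Real.exp_sub, Real.exp_log hK0, Real.exp_neg]
          rfl
        · rw [hx, max_eq_left h]
          simpa using hG1 n t ht) t ht
    refine h1.trans ?_
    have h2 : Real.exp (-(x / 2 ^ k)) ≤ K * Real.exp (-(a / 2 ^ k * n)) := by
      have h3 : -(x / 2 ^ k) ≤ Real.log K + -(a / 2 ^ k * n) := by
        have h4 : a * n - Real.log K ≤ x := le_max_right _ _
        have h2k : (1 : ℝ) ≤ 2 ^ k := one_le_pow₀ (by norm_num)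
        have h5 : (a * n - Real.log K) / 2 ^ k ≤ x / 2 ^ k := by gcongr
        have h6 : Real.log K / 2 ^ k ≤ Real.log K := div_le_self hlogK h2k
        have h7 : (a * n - Real.log K) / 2 ^ k = a / 2 ^ k * n - Real.log K / 2 ^ k := by ring
        linarith
      calc Real.exp (-(x / 2 ^ k)) ≤ Real.exp (Real.log K + -(a / 2 ^ k * n)) :=
            Real.exp_le_exp.2 h3
        _ = K * Real.exp (-(a / 2 ^ k * n)) := by rw [Real.exp_add, Real.exp_log hK0]
    calc CI k ⟨r, hr⟩ * Real.exp (-(x / 2 ^ k)) * (Cm * ((n : ℝ) + 2) ^ e) ^ (k + 1) ≤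
          CI k ⟨r, hr⟩ * (K * Real.exp (-(a / 2 ^ k * n))) *
            (Cm * ((n : ℝ) + 2) ^ e) ^ (k + 1) := by
          have := hCI0 k ⟨r, hr⟩
          gcongr
      _ = _ := by ring
  -- summability
  have hsumt : ∀ k, ∀ t ∈ Ioo p q, Summable fun n => iteratedDeriv k (g n) t := by
    intro k t ht
    set r := min (t - p) (q - t) with hrd
    have hr : 0 < r := lt_min (by linarith [ht.1]) (by linarith [ht.2])
    refine Summable.of_norm_bounded ((hsum k).mul_left (CI k ⟨r, hr⟩ * K)) fun n => ?_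
    rw [Real.norm_eq_abs]
    refine hterm k r hr n t ⟨?_, ?_⟩
    · linarith [min_le_left (t - p) (q - t)]
    · linarith [min_le_right (t - p) (q - t)]
  set U : ℕ → ℝ → ℝ := fun k t => iteratedDeriv k (G 0) t + ∑' n, iteratedDeriv k (g n) t with hU
  have hUd : ∀ k, ∀ t ∈ Ioo p q, HasDerivAt (U k) (U (k + 1) t) t := by
    intro k t ht
    set r := min (t - p) (q - t) / 2 with hrd
    have hr : 0 < r := by
      have : 0 < min (t - p) (q - t) := lt_min (by linarith [ht.1]) (by linarith [ht.2])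
      positivity
    have htr : t ∈ Ioo (p + r) (q - r) := by
      have h1 := min_le_left (t - p) (q - t)
      have h2 := min_le_right (t - p) (q - t)
      constructor <;> linarith
    refine (hasDerivAt_iter (hG 0) k t).add ?_
    refine hasDerivAt_tsum_of_isPreconnected (u := fun n : ℕ => CI (k + 1) ⟨r, hr⟩ * K *
      (Real.exp (-(a / 2 ^ (k + 1) * n)) * (Cm * ((n : ℝ) + 2) ^ e) ^ (k + 1 + 1)))
      ((hsum (k + 1)).mul_left _) isOpen_Ioo isPreconnected_Ioo
      (fun n y _ => hasDerivAt_iter (hgs n) k y) (fun n y hy => ?_) htr (hsumt k t ht) htr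
    rw [Real.norm_eq_abs]
    exact hterm (k + 1) r hr n y ⟨hy.1.le, hy.2.le⟩
  have htel : ∀ k, ∀ t ∈ Ioo p q, Tendsto (fun n => iteratedDeriv k (G n) t) atTop (𝓝 (U k t)) := by
    intro k t ht
    have h1 := (hsumt k t ht).hasSum.tendsto_sum_nat
    have h2 : ∀ N : ℕ, ∑ n ∈ Finset.range N, iteratedDeriv k (g n) t =
        iteratedDeriv k (G N) t - iteratedDeriv k (G 0) t := by
      intro N
      rw [← Finset.sum_range_sub (fun n => iteratedDeriv k (G n) t)]
      exact Finset.sum_congr rfl fun n _ => hgi n k t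
    simp only [h2] at h1
    have h3 := h1.const_add (iteratedDeriv k (G 0) t)
    simpa using h3
  have hF0 : ∀ t ∈ Ioo p q, F t = U 0 t := by
    intro t ht
    have h1 := htel 0 t ht
    simp only [iteratedDeriv_zero] at h1
    exact tendsto_nhds_unique (hF t ht) h1
  have hFU : ∀ k, ∀ t ∈ Ioo p q, iteratedDeriv k F t = U k t := by
    intro k t ht
    have h1 : F =ᶠ[𝓝 t] U 0 := by
      filter_upwards [isOpen_Ioo.mem_nhds ht] with y hy
      exact hF0 y hy
    rw [h1.iteratedDeriv_eq]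
    exact iteratedDeriv_of_seq isOpen_Ioo U hUd k t ht
  refine ⟨(contDiffOn_of_seq isOpen_Ioo U hUd 0).congr hF0, ?_, ?_, ?_⟩
  · intro k t ht
    rw [hFU (k + 1) t ht]
    refine (hUd k t ht).congr_of_eventuallyEq ?_
    filter_upwards [isOpen_Ioo.mem_nhds ht] with y hy
    exact hFU k y hy
  · intro k t ht
    rw [hFU k t ht]
    exact htel k t ht
  · intro k r hr t ht
    have htI : t ∈ Ioo p q := ⟨by linarith [ht.1], by linarith [ht.2]⟩
    rw [hFU k t htI]
    beta_reduce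
    rw [dif_pos hr]
    have h1 := hGj 0 k t htI
    have h2 : |∑' n, iteratedDeriv k (g n) t| ≤ CI k ⟨r, hr⟩ * K * S k := by
      rw [← Real.norm_eq_abs]
      refine tsum_of_norm_bounded ((hsum k).hasSum.mul_left (CI k ⟨r, hr⟩ * K)) fun n => ?_
      rw [Real.norm_eq_abs]
      exact hterm k r hr n t ht
    have h3 : |iteratedDeriv k (G 0) t| ≤ B k * Cm ^ k := by simpa using h1
    have h4 : B k * Cm ^ k ≤ B k * Cm ^ k * K := le_mul_of_one_le_right (by
      have := hB k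
      positivity) hK
    calc |U k t| ≤ |iteratedDeriv k (G 0) t| + |∑' n, iteratedDeriv k (g n) t| := abs_add_le _ _
      _ ≤ B k * Cm ^ k * K + CI k ⟨r, hr⟩ * K * S k := by linarith
      _ = _ := by ring

/-- differentiation under the expectation -/
theorem smooth_average {Ω : Type} [MeasurableSpace Ω] (P : Measure Ω) [IsProbabilityMeasure P]
    (p q : ℝ) (F : Ω → ℝ → ℝ) (K : Ω → ℝ) (hK : Integrable K P) (C : ℕ → ℝ → ℝ)
    (h : ∀ᵐ J ∂P, (∀ k, ∀ t ∈ Ioo p q,
        HasDerivAt (iteratedDeriv k (F J)) (iteratedDeriv (k + 1) (F J) t) t) ∧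
      ∀ k r, 0 < r → ∀ t ∈ Icc (p + r) (q - r), |iteratedDeriv k (F J) t| ≤ C k r * K J)
    (hm : ∀ k, ∀ t ∈ Ioo p q, AEStronglyMeasurable (fun J => iteratedDeriv k (F J) t) P) :
    ContDiffOn ℝ ∞ (fun t => ∫ J, F J t ∂P) (Ioo p q) ∧
      ∀ k, ∀ t ∈ Ioo p q, iteratedDeriv k (fun t => ∫ J, F J t ∂P) t =
        ∫ J, iteratedDeriv k (F J) t ∂P := by
  set W : ℕ → ℝ → ℝ := fun k t => ∫ J, iteratedDeriv k (F J) t ∂P with hW
  have hb : ∀ k, ∀ t ∈ Ioo p q, Integrable (fun J => iteratedDeriv k (F J) t) P := by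
    intro k t ht
    set r := min (t - p) (q - t) with hrd
    have hr : 0 < r := lt_min (by linarith [ht.1]) (by linarith [ht.2])
    refine Integrable.mono' (hK.const_mul (C k r)) (hm k t ht) ?_
    filter_upwards [h] with J hJ
    rw [Real.norm_eq_abs]
    refine hJ.2 k r hr t ⟨?_, ?_⟩
    · linarith [min_le_left (t - p) (q - t)]
    · linarith [min_le_right (t - p) (q - t)]
  have hWd : ∀ k, ∀ t ∈ Ioo p q, HasDerivAt (W k) (W (k + 1) t) t := by
    intro k t ht
    set r := min (t - p) (q - t) / 2 with hrd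
    have hr : 0 < r := by
      have : 0 < min (t - p) (q - t) := lt_min (by linarith [ht.1]) (by linarith [ht.2])
      positivity
    have htr : Ioo (p + r) (q - r) ∈ 𝓝 t := by
      refine isOpen_Ioo.mem_nhds ?_
      have h1 := min_le_left (t - p) (q - t)
      have h2 := min_le_right (t - p) (q - t)
      constructor <;> linarith
    refine (hasDerivAt_integral_of_dominated_loc_of_deriv_le (μ := P)
      (F := fun t J => iteratedDeriv k (F J) t) (F' := fun t J => iteratedDeriv (k + 1) (F J) t)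
      (bound := fun J => C (k + 1) r * K J) htr ?_ (hb k t ht)
      (hm (k + 1) t ht) ?_ (hK.const_mul _) ?_).2
    · filter_upwards [isOpen_Ioo.mem_nhds ht] with y hy
      exact hm k y hy
    · filter_upwards [h] with J hJ y hy
      rw [Real.norm_eq_abs]
      exact hJ.2 (k + 1) r hr y ⟨hy.1.le, hy.2.le⟩
    · filter_upwards [h] with J hJ y hy
      exact hJ.1 k y ⟨by linarith [hy.1], by linarith [hy.2]⟩
  have e0 : (fun t => ∫ J, F J t ∂P) = W 0 := by
    funext t
    simp only [hW, iteratedDeriv_zero]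
  rw [e0]
  exact ⟨contDiffOn_of_seq isOpen_Ioo W hWd 0, iteratedDeriv_of_seq isOpen_Ioo W hWd⟩

end Pool.Agent.Helper79K9.SM
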