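import Pool.Agent.Helper79K9.SM.Limit
import Pool.Agent.Helper79K9.FS.A4

/-!
# Smooth dependence of the Gibbs expectations on the parameters
-/

set_option autoImplicit false

open Set Filter Topology MeasureTheory
open scoped ContDiff

namespace Pool.Agent.Helper79K9.SM

open Pool.H47EA (Site dist1 Coupling Jc nbr ball edgesOf glue couplingLaw Unit01 LocalOn ind lat)
open Pool.Agent.Helper79K9.EA
open Pool.Agent.Helper79K9.FS (DecaysAt)

variable {d : ℕ}

/-! ### affine families -/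

theorem ham_affine (W0 W1 : Sym2 (Site d) → ℝ) (h0 h1 : Site d → ℝ) (t : ℝ)
    (Λ : Finset (Site d)) (σ : Site d → Bool) :
    ham (fun e => W0 e + t * W1 e) (fun x => h0 x + t * h1 x) Λ σ =
      ham W0 h0 Λ σ + t * ham W1 h1 Λ σ := by
  unfold ham
  simp only [add_mul, Finset.sum_add_distrib, mul_add, Finset.mul_sum, mul_assoc]
  ring

theorem gE_eav (W0 W1 : Sym2 (Site d) → ℝ) (h0 h1 : Site d → ℝ) (t : ℝ)
    (Λ : Finset (Site d)) (ξ : Site d → Bool) (f : (Site d → Bool) → ℝ) :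
    gE (fun e => W0 e + t * W1 e) (fun x => h0 x + t * h1 x) Λ ξ f =
      eav (fun η : Λ → Bool => ham W0 h0 Λ (glue Λ η ξ)) (fun η => ham W1 h1 Λ (glue Λ η ξ))
        (fun η => f (glue Λ η ξ)) t := by
  unfold gE Zp eav
  simp only [ham_affine]

theorem ham_le (W : Sym2 (Site d) → ℝ) (h : Site d → ℝ) (hW : ∀ e, |W e| ≤ 1)
    (hh : ∀ x, |h x| ≤ 1) (Λ : Finset (Site d)) (σ : Site d → Bool) :
    |ham W h Λ σ| ≤ (2 * d + 1) * Λ.card := by
  have hs : ∀ b : Bool, |Pool.H47EA.sg b| = 1 := fun b => by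
    unfold Pool.H47EA.sg; split_ifs <;> norm_num
  unfold ham
  refine (abs_add_le _ _).trans ?_
  have h1 : |∑ e ∈ edgesOf Λ, W e * spin σ e| ≤ (Λ.card * (2 * d) : ℕ) := by
    refine (Finset.abs_sum_le_sum_abs _ _).trans ?_
    have h2 : ∑ e ∈ edgesOf Λ, |W e * spin σ e| ≤ ((edgesOf Λ).card : ℝ) := by
      rw [← nsmul_one, ← Finset.sum_const]
      refine Finset.sum_le_sum fun e _ => ?_
      induction e using Sym2.ind with
      | _ u v =>
        rw [spin_mk, abs_mul, abs_mul, hs, hs, mul_one, mul_one]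
        exact hW _
    refine h2.trans ?_
    have h3 : (edgesOf Λ).card ≤ Λ.card * (2 * d) := by
      unfold edgesOf
      exact Finset.card_biUnion_le_card_mul Λ _ (2 * d) fun y _ =>
        Finset.card_image_le.trans (Pool.H47EA.InfAux.nbr_card y)
    exact_mod_cast h3
  have h4 : |∑ x ∈ Λ, h x * Pool.H47EA.sg (σ x)| ≤ Λ.card := by
    refine (Finset.abs_sum_le_sum_abs _ _).trans ?_
    rw [← nsmul_one, ← Finset.sum_const]
    refine Finset.sum_le_sum fun x _ => ?_
    rw [abs_mul, hs, mul_one]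
    exact hh x
  push_cast at h1
  calc _ ≤ (Λ.card : ℝ) * (2 * d) + Λ.card := add_le_add h1 h4
    _ = _ := by ring

/-- neighbourhoods of a finite set -/
noncomputable def vol (A : Finset (Site d)) (n : ℕ) : Finset (Site d) :=
  open Classical in A.biUnion fun a => ball a n

theorem mem_vol (A : Finset (Site d)) (n : ℕ) (y : Site d) :
    y ∈ vol A n ↔ ∃ a ∈ A, dist1 a y ≤ n := by
  unfold vol
  rw [Finset.mem_biUnion]
  simp only [Pool.H47EA.mem_ball_iff]

theorem card_vol (A : Finset (Site d)) (n : ℕ) : (vol A n).card ≤ A.card * (2 * n + 1) ^ d := by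
  classical
  unfold vol
  exact Finset.card_biUnion_le_card_mul _ _ _ fun a _ => FS.card_ball_le a n

theorem Sp.near {g : Finset (Site d) → (Site d → Bool) → ((Site d → Bool) → ℝ) → ℝ} (hb : Sp g)
    (Λ : Finset (Site d)) (ξ : Site d → Bool) (F : (Site d → Bool) → ℝ) (c δ : ℝ)
    (h : ∀ η : Λ → Bool, |F (glue Λ η ξ) - c| ≤ δ) : |g Λ ξ F - c| ≤ δ := by
  rw [abs_le]
  constructor
  · have h1 := hb.mono Λ ξ (fun _ => c - δ) F fun η => by
      have := (abs_le.1 (h η)).1
      linarith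
    rw [hb.const] at h1
    linarith
  · have h1 := hb.mono Λ ξ F (fun _ => c + δ) fun η => by
      have := (abs_le.1 (h η)).2
      linarith
    rw [hb.const] at h1
    linarith

/-- the constants -/
theorem model_smooth (a : ℝ) (ha : 0 < a) (d N : ℕ) : ∃ C : ℕ → ℝ → ℝ, (∀ k r, 0 ≤ C k r) ∧
    ∀ (p q : ℝ) (W0 W1 : Sym2 (Site d) → ℝ) (h0 h1 : Site d → ℝ), (∀ e, |W1 e| ≤ 1) →
      (∀ x, |h1 x| ≤ 1) → ∀ K : Site d → ℝ, (∀ x, 0 ≤ K x) →
      (∀ t ∈ Ioo p q, DecaysAt (gE (fun e => W0 e + t * W1 e) (fun x => h0 x + t * h1 x)) K a) →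
      ∀ π : ℝ → Measure (Site d → Bool),
      (∀ t ∈ Ioo p q, IsGibbs (fun e => W0 e + t * W1 e) (fun x => h0 x + t * h1 x) (π t)) →
      ∀ (A : Finset (Site d)) (f : (Site d → Bool) → ℝ), A.card ≤ N → Unit01 f → LocalOn A f →
      ContDiffOn ℝ ∞ (fun t => ∫ σ, f σ ∂(π t)) (Ioo p q) ∧
      (∀ k, ∀ t ∈ Ioo p q, HasDerivAt (iteratedDeriv k (fun t => ∫ σ, f σ ∂(π t)))
        (iteratedDeriv (k + 1) (fun t => ∫ σ, f σ ∂(π t)) t) t) ∧
      (∀ k, ∀ t ∈ Ioo p q, Tendsto (fun n => iteratedDeriv k (fun t =>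
          gE (fun e => W0 e + t * W1 e) (fun x => h0 x + t * h1 x) (vol A n) (fun _ => true) f) t)
        atTop (𝓝 (iteratedDeriv k (fun t => ∫ σ, f σ ∂(π t)) t))) ∧
      ∀ k r, 0 < r → ∀ t ∈ Icc (p + r) (q - r),
        |iteratedDeriv k (fun t => ∫ σ, f σ ∂(π t)) t| ≤ C k r * (1 + ∑ x ∈ A, K x) := by
  classical
  choose B hB0 hB using fun k => eav_bound k
  set Cm : ℝ := (2 * d + 1) * (N + 1) * 2 ^ d with hCm
  have hCm1 : 1 ≤ Cm := by
    have h1 : (1 : ℝ) ≤ 2 * d + 1 := by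
      have : (0 : ℝ) ≤ d := Nat.cast_nonneg d
      linarith
    have h2 : (1 : ℝ) ≤ N + 1 := by
      have : (0 : ℝ) ≤ N := Nat.cast_nonneg N
      linarith
    have h3 : (1 : ℝ) ≤ 2 ^ d := one_le_pow₀ (by norm_num)
    rw [hCm]
    calc (1 : ℝ) = 1 * 1 * 1 := by norm_num
      _ ≤ (2 * d + 1) * (N + 1) * 2 ^ d := by gcongr
  obtain ⟨C, hC0, hC⟩ := smooth_limit B hB0 a ha Cm hCm1 d
  refine ⟨C, hC0, ?_⟩
  intro p q W0 W1 h0 h1 hW1 hh1 K hK hD π hπ A f hAN hf hfA
  have hKA : 0 ≤ ∑ x ∈ A, K x := Finset.sum_nonneg fun x _ => hK x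
  set ξ0 : Site d → Bool := fun _ => true with hξ0
  set G : ℕ → ℝ → ℝ := fun n t =>
    gE (fun e => W0 e + t * W1 e) (fun x => h0 x + t * h1 x) (vol A n) ξ0 f with hG
  have hGe : ∀ n, G n = eav (fun η : vol A n → Bool => ham W0 h0 (vol A n) (glue (vol A n) η ξ0))
      (fun η => ham W1 h1 (vol A n) (glue (vol A n) η ξ0)) (fun η => f (glue (vol A n) η ξ0)) := by
    intro n
    funext t
    exact gE_eav W0 W1 h0 h1 t (vol A n) ξ0 f
  have hout : ∀ n, ∀ x ∈ A, ∀ y, y ∉ vol A n → n ≤ dist1 x y := by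
    intro n x hx y hy
    by_contra hlt
    exact hy ((mem_vol A n y).2 ⟨x, hx, by omega⟩)
  have hdec : ∀ t ∈ Ioo p q, ∀ n (τ τ' : Site d → Bool),
      |gE (fun e => W0 e + t * W1 e) (fun x => h0 x + t * h1 x) (vol A n) τ f -
        gE (fun e => W0 e + t * W1 e) (fun x => h0 x + t * h1 x) (vol A n) τ' f| ≤
        (∑ x ∈ A, K x) * Real.exp (-(a * n)) := fun t ht n τ τ' =>
    hD t ht A (vol A n) f hf hfA n τ τ' fun x hx y hy _ => hout n x hx y hy
  refine hC p q G (fun t => ∫ σ, f σ ∂(π t)) (1 + ∑ x ∈ A, K x) (by linarith) ?_ ?_ ?_ ?_ ?_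
  · intro n
    rw [hGe n]
    exact eav_smooth _ _ _
  · intro n j t _
    have hcard : ((vol A n).card : ℝ) ≤ (N : ℝ) * (2 * n + 1) ^ d := by
      have h2 : (vol A n).card ≤ N * (2 * n + 1) ^ d :=
        (card_vol A n).trans (Nat.mul_le_mul_right _ hAN)
      exact_mod_cast h2
    have hM : (2 * d + 1) * ((vol A n).card : ℝ) ≤ Cm * ((n : ℝ) + 1) ^ d := by
      have h3 : ((2 : ℝ) * n + 1) ^ d ≤ 2 ^ d * ((n : ℝ) + 1) ^ d := by
        rw [← mul_pow]
        gcongr
        linarith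
      calc (2 * d + 1) * ((vol A n).card : ℝ) ≤ (2 * d + 1) * ((N : ℝ) * (2 * n + 1) ^ d) := by
            gcongr
        _ ≤ (2 * d + 1) * (((N : ℝ) + 1) * (2 ^ d * ((n : ℝ) + 1) ^ d)) := by
            gcongr
            linarith
        _ = Cm * ((n : ℝ) + 1) ^ d := by rw [hCm]; ring
    have h4 := hB j (vol A n → Bool)
      (fun η : vol A n → Bool => ham W0 h0 (vol A n) (glue (vol A n) η ξ0))
      (fun η => ham W1 h1 (vol A n) (glue (vol A n) η ξ0)) (fun η => f (glue (vol A n) η ξ0))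
      (Cm * ((n : ℝ) + 1) ^ d) 1 (by positivity) zero_le_one
      (fun η => (ham_le W1 h1 hW1 hh1 (vol A n) _).trans hM)
      (fun η => by rw [abs_of_nonneg (hf _).1]; exact (hf _).2) j le_rfl t
    rw [hGe n]
    simpa using h4
  · intro n t ht
    have hsub : vol A n ⊆ vol A (n + 1) := by
      intro y hy
      rw [mem_vol] at hy ⊢
      obtain ⟨a, ha, h⟩ := hy
      exact ⟨a, ha, by omega⟩
    have hs := sp (fun e => W0 e + t * W1 e) (fun x => h0 x + t * h1 x)
    have h2 : |G (n + 1) t - G n t| ≤ (∑ x ∈ A, K x) * Real.exp (-(a * n)) := by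
      simp only [hG]
      rw [hs.cons (vol A (n + 1)) ξ0 (vol A n) hsub f]
      exact Sp.near hs (vol A (n + 1)) ξ0 _ _ _ fun η => hdec t ht n _ _
    refine h2.trans ?_
    gcongr
    linarith
  · intro n t _
    have hs := sp (fun e => W0 e + t * W1 e) (fun x => h0 x + t * h1 x)
    have u1 := hs.unit (vol A (n + 1)) ξ0 f hf
    have u2 := hs.unit (vol A n) ξ0 f hf
    simp only [hG]
    rw [abs_le]
    constructor <;> linarith [u1.1, u1.2, u2.1, u2.2]
  · intro t ht
    have hg := hπ t ht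
    have := hg.1
    have mf := meas_local hfA
    have bf : ∀ x, |f x| ≤ 1 := fun x => by rw [abs_of_nonneg (hf x).1]; exact (hf x).2
    have hlim : Tendsto (fun n : ℕ => (∑ x ∈ A, K x) * Real.exp (-(a * n))) atTop (𝓝 0) := by
      have h1 : Tendsto (fun n : ℕ => Real.exp (-(a * n))) atTop (𝓝 0) := by
        apply Real.tendsto_exp_neg_atTop_nhds_zero.comp
        exact tendsto_natCast_atTop_atTop.const_mul_atTop ha
      simpa using h1.const_mul (∑ x ∈ A, K x)
    have hbound : ∀ n, ‖(∫ σ, f σ ∂(π t)) - G n t‖ ≤ (∑ x ∈ A, K x) * Real.exp (-(a * n)) := by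
      intro n
      have mg := meas_gE (fun e => W0 e + t * W1 e) (fun x => h0 x + t * h1 x) (vol A n) f mf
      have hgi : Integrable (fun τ =>
          gE (fun e => W0 e + t * W1 e) (fun x => h0 x + t * h1 x) (vol A n) τ f) (π t) :=
        Integrable.of_bound mg.aestronglyMeasurable 1 (ae_of_all _ fun τ => by
          have u := (sp (fun e => W0 e + t * W1 e) (fun x => h0 x + t * h1 x)).unit (vol A n) τ f hf
          rw [Real.norm_eq_abs, abs_of_nonneg u.1]; exact u.2)
      have e1 : (∫ σ, f σ ∂(π t)) - G n t = ∫ τ,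
          (gE (fun e => W0 e + t * W1 e) (fun x => h0 x + t * h1 x) (vol A n) τ f - G n t) ∂(π t) := by
        rw [integral_sub hgi (integrable_const _), dlr _ _ hg (vol A n) f mf 1 bf]
        simp
      rw [e1]
      have := norm_integral_le_of_norm_le_const (μ := π t) (f := fun τ =>
        gE (fun e => W0 e + t * W1 e) (fun x => h0 x + t * h1 x) (vol A n) τ f - G n t)
        (C := (∑ x ∈ A, K x) * Real.exp (-(a * n))) (ae_of_all _ fun τ => by
          rw [Real.norm_eq_abs]; exact hdec t ht n τ ξ0)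
      simpa using this
    have h5 : Tendsto (fun n => (∫ σ, f σ ∂(π t)) - G n t) atTop (𝓝 0) :=
      squeeze_zero_norm hbound hlim
    have h6 := h5.const_sub (∫ σ, f σ ∂(π t))
    simpa using h6

/-! ### measurability -/

theorem meas_dep (F : Finset (lat d).edgeSet) (f : Coupling d → ℝ)
    (hf : ∀ J J' : Coupling d, (∀ e ∈ F, J e = J' e) → f J = f J') : Measurable f := by
  classical
  let g : (F → Bool) → ℝ := fun y => f (fun e => if h : e ∈ F then y ⟨e, h⟩ else false)
  have : f = g ∘ (fun J : Coupling d => fun e : F => J e) := by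
    funext J
    exact hf _ _ fun e he => by simp [he]
  rw [this]
  exact (measurable_of_finite g).comp (measurable_pi_lambda _ fun e => measurable_pi_apply _)

/-- the edges touching a set -/
noncomputable def edF (Λ : Finset (Site d)) : Finset (lat d).edgeSet :=
  open Classical in (edgesOf Λ).subtype fun e => e ∈ (lat d).edgeSet

theorem mem_edF (Λ : Finset (Site d)) (e : (lat d).edgeSet) : e ∈ edF Λ ↔ e.1 ∈ edgesOf Λ := by
  unfold edF
  exact Finset.mem_subtype

theorem cpl_dep (β : ℝ) (m : Sym2 (Site d) → ℝ) (s : Site d → ℝ) (Λ : Finset (Site d))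
    (J J' : Coupling d) (h : ∀ e ∈ edF Λ, J e = J' e) (e : Sym2 (Site d)) (he : e ∈ edgesOf Λ) :
    cpl β m s J e = cpl β m s J' e := by
  induction e using Sym2.ind with
  | _ x y =>
    show β * m s(x, y) * Jc J x y * s x * s y = β * m s(x, y) * Jc J' x y * s x * s y
    have : Jc J x y = Jc J' x y := by
      unfold Jc
      by_cases hadj : (lat d).Adj x y
      · rw [dif_pos hadj, dif_pos hadj]
        congr 1
        exact h ⟨s(x, y), hadj⟩ ((mem_edF Λ _).2 he)
      · rw [dif_neg hadj, dif_neg hadj]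
    rw [this]

theorem cpl_affine (β b t : ℝ) (m : Sym2 (Site d) → ℝ) (s : Site d → ℝ) (J : Coupling d) :
    cpl (β + t * b) m s J = fun e => cpl β m s J e + t * cpl b m s J e := by
  funext e
  induction e using Sym2.ind with
  | _ x y =>
    show (β + t * b) * m s(x, y) * Jc J x y * s x * s y =
      β * m s(x, y) * Jc J x y * s x * s y + t * (b * m s(x, y) * Jc J x y * s x * s y)
    ring

theorem cpl_le {b : ℝ} (hb : |b| ≤ 1) {m : Sym2 (Site d) → ℝ} (hm : ∀ e, 0 ≤ m e ∧ m e ≤ 1)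
    {s : Site d → ℝ} (hs : ∀ x, |s x| ≤ 1) (J : Coupling d) (e : Sym2 (Site d)) :
    |cpl b m s J e| ≤ 1 := by
  induction e using Sym2.ind with
  | _ x y =>
    show |b * m s(x, y) * Jc J x y * s x * s y| ≤ 1
    rw [abs_mul, abs_mul, abs_mul, abs_mul, abs_of_nonneg (hm _).1]
    have h1 := Pool.H47EA.InfAux.abs_Jc_le J x y
    have h2 := hs x
    have h3 := hs y
    have h4 := (hm s(x, y)).2
    have h5 := (hm s(x, y)).1
    calc |b| * m s(x, y) * |Jc J x y| * |s x| * |s y| ≤ 1 * 1 * 1 * 1 * 1 := by gcongr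
      _ = 1 := by norm_num

/-- measurability of the derivatives in finite volumes -/
theorem meas_iter (k : ℕ) (β b : ℝ) (m : Sym2 (Site d) → ℝ) (s h h' : Site d → ℝ)
    (Λ : Finset (Site d)) (ξ : Site d → Bool) (f : (Site d → Bool) → ℝ) (t : ℝ) :
    Measurable fun J : Coupling d => iteratedDeriv k (fun t =>
      gE (fun e => cpl β m s J e + t * cpl b m s J e) (fun x => h x + t * h' x) Λ ξ f) t := by
  refine meas_dep (edF Λ) _ fun J J' hJ => ?_
  congr 1
  funext t
  refine gE_param Λ (fun e he => ?_) (fun x _ => rfl) ξ f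
  rw [cpl_dep β m s Λ J J' hJ e he, cpl_dep b m s Λ J J' hJ e he]

end Pool.Agent.Helper79K9.SM
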