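import Pool.Agent.Helper79K9.SM.Final
import Pool.Agent.Helper79K9.FS.A5

/-!
# Translation of finite-volume averages; boxes
-/

set_option autoImplicit false

open Set Filter Topology MeasureTheory

namespace Pool.Agent.Helper79K9.SM

open Pool.H47EA
open Pool.Agent.Helper79K9.FS (pull emb_inj law_pull meas_pull Jc_pull ham_pull dist_add spEA
  DecaysAt phase)

/-! ### transport of averages -/

section
variable {d d' : ℕ} (φ : Site d → Site d') (hφ : ∀ x y, dist1 (φ x) (φ y) = dist1 x y)

open Classical in
theorem gE_pull' (β : ℝ) (J' : Coupling d') (L : Finset (Site d))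
    (F : (Site d → Bool) → ℝ) (ω : Site d' → Bool)
    (hω : ∀ x ∈ L, ∑ y ∈ (nbr (φ x)).filter (fun y => y ∉ Set.range φ),
      Jc J' (φ x) y * sg (ω y) = 0) :
    gE β J' (L.image φ) ω (fun σ => F (fun z => σ (φ z))) =
      gE β (pull φ hφ J') L (fun x => ω (φ x)) F := by
  have hinj := emb_inj φ hφ
  let eL : L ≃ ↥(L.image φ) := Equiv.ofBijective
    (fun z => ⟨φ z.1, Finset.mem_image_of_mem φ z.2⟩) ⟨fun a b h => by
      have : φ a.1 = φ b.1 := congrArg Subtype.val h
      exact Subtype.ext (hinj this), fun ⟨b, hb⟩ => by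
      obtain ⟨a, ha, rfl⟩ := Finset.mem_image.1 hb
      exact ⟨⟨a, ha⟩, rfl⟩⟩
  let E : (↥(L.image φ) → Bool) ≃ (L → Bool) :=
    (Equiv.arrowCongr eL (Equiv.refl Bool)).symm
  have hE : ∀ (η : ↥(L.image φ) → Bool) (z : L), E η z = η (eL z) :=
    fun η z => rfl
  have hglue : ∀ η : ↥(L.image φ) → Bool,
      (fun z => glue (L.image φ) η ω (φ z)) = glue L (E η) (fun z => ω (φ z)) := by
    intro η
    funext z
    by_cases hz : z ∈ L
    · rw [Basic.glue_mem _ _ hz, Basic.glue_mem _ _ (Finset.mem_image_of_mem φ hz), hE]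
      rfl
    · have hz' : φ z ∉ L.image φ := by
        intro h
        obtain ⟨w, hw, h⟩ := Finset.mem_image.1 h
        exact hz (by rwa [← hinj h])
      rw [Basic.glue_not_mem _ _ hz, Basic.glue_not_mem _ _ hz']
  have hham : ∀ η, ham J' (L.image φ) (glue (L.image φ) η ω) =
      ham (pull φ hφ J') L (glue L (E η) (fun z => ω (φ z))) := by
    intro η
    rw [ham_pull φ hφ J' L, hglue]
    intro y hy
    rw [← hω y hy]
    refine Finset.sum_congr rfl fun z hz => ?_
    rw [Basic.glue_not_mem]
    intro h
    obtain ⟨w, -, rfl⟩ := Finset.mem_image.1 h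
    exact (Finset.mem_filter.1 hz).2 ⟨w, rfl⟩
  unfold gE Zp
  congr 1
  · exact Fintype.sum_equiv E _ _ fun η => by
      beta_reduce
      rw [hham, hglue]
  · exact Fintype.sum_equiv E _ _ fun η => by rw [hham]

end

variable {d : ℕ}

/-- the unit vectors -/
def ee (i : Fin d) : Site d := Pi.single i 1

/-- the energy of the bond from `x` in direction `i` -/
noncomputable def bnd (J : Coupling d) (x : Site d) (i : Fin d) (σ : Site d → Bool) : ℝ :=
  Jc J x (x + ee i) * sg (σ x) * sg (σ (x + ee i))

theorem sg_abs (b : Bool) : |sg b| = 1 := by unfold sg; split_ifs <;> norm_num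

theorem bnd_abs (J : Coupling d) (x : Site d) (i : Fin d) (σ : Site d → Bool) :
    |bnd J x i σ| ≤ 1 := by
  unfold bnd
  rw [abs_mul, abs_mul, sg_abs, sg_abs, mul_one, mul_one]
  exact InfAux.abs_Jc_le J _ _

theorem bnd_pull (x : Site d) (i : Fin d) (J' : Coupling d) (σ : Site d → Bool) :
    bnd J' x i σ = bnd (pull (fun z => z + x) (fun a b => dist_add a b x) J') 0 i
      (fun z => σ (z + x)) := by
  unfold bnd
  rw [Jc_pull]
  simp only [zero_add, add_comm (ee i) x]

theorem image_ball (x : Site d) (n : ℕ) :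
    (open Classical in (ball (0 : Site d) n).image (fun z => z + x)) = ball x n := by
  classical
  ext y
  rw [Finset.mem_image]
  simp only [chain_mem_ball]
  constructor
  · rintro ⟨z, hz, rfl⟩
    rw [← dist_add 0 z x] at hz
    simpa using hz
  · intro h
    refine ⟨y - x, ?_, by simp⟩
    rw [← dist_add 0 (y - x) x]
    simpa using h

/-- translation invariance of the expected finite-volume energies -/
theorem bnd_translate (β : ℝ) (x : Site d) (i : Fin d) (n : ℕ) :
    ∫ J, gE β J (ball x n) (fun _ => true) (bnd J x i) ∂(couplingLaw d) =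
      ∫ J, gE β J (ball 0 n) (fun _ => true) (bnd J 0 i) ∂(couplingLaw d) := by
  classical
  have hm : Measurable fun J : Coupling d =>
      gE β J (ball 0 n) (fun _ => true) (bnd J 0 i) := by
    refine meas_dep (edF (ball 0 n) ∪ edF {(0 : Site d)}) _ fun J J' h => ?_
    have e1 : bnd J 0 i = bnd J' 0 i := by
      funext σ
      unfold bnd
      congr 2
      unfold Jc
      by_cases hadj : (lat d).Adj 0 (0 + ee i)
      · rw [dif_pos hadj, dif_pos hadj]
        congr 1
        refine h _ (Finset.mem_union_right _ ((mem_edF _ _).2 ?_))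
        exact Basic.mem_edgesOf.2 ⟨0, Finset.mem_singleton_self _, _, hadj, rfl⟩
      · rw [dif_neg hadj, dif_neg hadj]
    rw [e1]
    exact FS.gE_coupling β (ball 0 n) (fun e he heL =>
      h ⟨e, he⟩ (Finset.mem_union_left _ ((mem_edF _ _).2 heL))) _ _
  conv_rhs => rw [← law_pull (fun z : Site d => z + x) (fun a b => dist_add a b x)]
  rw [integral_map (meas_pull _ _).aemeasurable hm.aestronglyMeasurable]
  refine integral_congr_ae (ae_of_all _ fun J => ?_)
  have key := gE_pull' (fun z : Site d => z + x) (fun a b => dist_add a b x) β J (ball 0 n)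
    (bnd (pull (fun z => z + x) (fun a b => dist_add a b x) J) 0 i) (fun _ => true) (by
      intro y _
      rw [Finset.sum_eq_zero]
      intro z hz
      exact absurd ⟨z - x, by simp⟩ (Finset.mem_filter.1 hz).2)
  have e2 : (fun σ : Site d → Bool => bnd (pull (fun z => z + x) (fun a b => dist_add a b x) J) 0 i
      (fun z => σ (z + x))) = bnd J x i := by
    funext σ
    exact (bnd_pull x i J σ).symm
  rw [e2] at key
  beta_reduce
  rw [← key]
  congr 1
  exact (image_ball x n).symm

end Pool.Agent.Helper79K9.SM
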