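import Pool.Agent.Helper79K9.SM.Press1

/-!
# Energies in large boxes
-/

set_option autoImplicit false

open Set Filter Topology MeasureTheory

namespace Pool.Agent.Helper79K9.SM

open Pool.H47EA
open Pool.Agent.Helper79K9.FS (spEA DecaysAt phase)

variable {d : ℕ}

theorem ee_ne (i j : Fin d) : ee i + ee j ≠ (0 : Site d) := by
  intro h
  have := congrFun h i
  unfold ee at this
  rw [Pi.add_apply, Pi.single_eq_same, Pi.zero_apply] at this
  by_cases hij : i = j
  · subst hij
    rw [Pi.single_eq_same] at this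
    omega
  · rw [Pi.single_eq_of_ne hij] at this
    omega

theorem dist_ee (x : Site d) (i : Fin d) : dist1 x (x + ee i) = 1 := by
  unfold dist1 ee
  rw [Finset.sum_eq_single i]
  · simp
  · intro j _ hj
    rw [Pi.add_apply, Pi.single_eq_of_ne hj]
    simp
  · intro h; exact absurd (Finset.mem_univ _) h

/-- edges in positive directions -/
noncomputable def posE (Λ : Finset (Site d)) : Finset (Sym2 (Site d)) :=
  open Classical in (Λ ×ˢ (Finset.univ : Finset (Fin d))).image fun p => s(p.1, p.1 + ee p.2)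

theorem posE_inj (p q : Site d × Fin d) (h : s(p.1, p.1 + ee p.2) = s(q.1, q.1 + ee q.2)) :
    p = q := by
  rw [Sym2.eq_iff] at h
  rcases h with ⟨h1, h2⟩ | ⟨h1, h2⟩
  · obtain ⟨x, i⟩ := p
    obtain ⟨y, j⟩ := q
    dsimp only at h1 h2
    subst h1
    have h3 : ee i = ee j := add_left_cancel h2
    have : i = j := by
      by_contra hij
      have h4 := congrFun h3 i
      unfold ee at h4
      rw [Pi.single_eq_same, Pi.single_eq_of_ne hij] at h4
      omega
    rw [this]
  · exfalso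
    apply ee_ne p.2 q.2
    have : p.1 = p.1 + (ee p.2 + ee q.2) := by
      rw [← add_assoc, h2]; exact h1
    simpa using this

theorem sum_posE (Λ : Finset (Site d)) (g : Sym2 (Site d) → ℝ) :
    ∑ e ∈ posE Λ, g e = ∑ x ∈ Λ, ∑ i, g s(x, x + ee i) := by
  classical
  unfold posE
  rw [Finset.sum_image fun p _ q _ h => posE_inj p q h, Finset.sum_product]

theorem card_posE (Λ : Finset (Site d)) : (posE Λ).card = Λ.card * d := by
  classical
  unfold posE
  rw [Finset.card_image_of_injective _ (fun p q h => posE_inj p q h), Finset.card_product]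
  simp

theorem nbr_cases {x y : Site d} (h : dist1 x y = 1) : ∃ i, y = x + ee i ∨ x = y + ee i := by
  have h1 : ∃ i, (x i - y i).natAbs ≠ 0 := by
    by_contra hcon
    push Not at hcon
    unfold dist1 at h
    rw [Finset.sum_eq_zero fun i _ => hcon i] at h
    omega
  obtain ⟨i, hi⟩ := h1
  have h2 : ∀ j, j ≠ i → x j = y j := by
    intro j hj
    by_contra hne
    have h3 : (x i - y i).natAbs + (x j - y j).natAbs ≤ dist1 x y := by
      unfold dist1
      rw [← Finset.sum_pair hj.symm (f := fun i => (x i - y i).natAbs)]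
      exact Finset.sum_le_sum_of_subset (Finset.subset_univ _)
    omega
  have h4 : (x i - y i).natAbs = 1 := by
    have h3 : (x i - y i).natAbs ≤ dist1 x y :=
      Finset.single_le_sum (f := fun i => (x i - y i).natAbs) (fun _ _ => Nat.zero_le _)
        (Finset.mem_univ i)
    omega
  refine ⟨i, ?_⟩
  have h5 : y i = x i + 1 ∨ x i = y i + 1 := by omega
  rcases h5 with h5 | h5
  · left
    funext j
    unfold ee
    by_cases hj : j = i
    · subst hj; rw [Pi.add_apply, Pi.single_eq_same]; exact h5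
    · rw [Pi.add_apply, Pi.single_eq_of_ne hj, add_zero]; exact (h2 j hj).symm
  · right
    funext j
    unfold ee
    by_cases hj : j = i
    · subst hj; rw [Pi.add_apply, Pi.single_eq_same]; exact h5
    · rw [Pi.add_apply, Pi.single_eq_of_ne hj, add_zero]; exact h2 j hj

/-- comparison of the Hamiltonian with the sum of the bond energies of an inner set -/
theorem ham_inner (J : Coupling d) (Λ0 Λ Λ1 : Finset (Site d)) (h0 : Λ0 ⊆ Λ)
    (h1 : ∀ x ∈ Λ, x ∈ Λ1 ∧ ∀ i, x - ee i ∈ Λ1) (σ : Site d → Bool) :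
    |ham J Λ σ - ∑ x ∈ Λ0, ∑ i, bnd J x i σ| ≤ (Λ1.card - Λ0.card : ℝ) * d := by
  classical
  have hs0 : posE Λ0 ⊆ edgesOf Λ := by
    intro e he
    unfold posE at he
    obtain ⟨⟨x, i⟩, hx, rfl⟩ := Finset.mem_image.1 he
    exact Basic.mem_edgesOf.2 ⟨x, h0 (Finset.mem_product.1 hx).1, _, dist_ee x i, rfl⟩
  have hs1 : edgesOf Λ ⊆ posE Λ1 := by
    intro e he
    obtain ⟨x, hx, y, hxy, rfl⟩ := Basic.mem_edgesOf.1 he
    unfold posE
    rw [Finset.mem_image]
    obtain ⟨i, rfl | rfl⟩ := nbr_cases hxy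
    · exact ⟨(x, i), Finset.mem_product.2 ⟨(h1 x hx).1, Finset.mem_univ _⟩, rfl⟩
    · refine ⟨(y, i), Finset.mem_product.2 ⟨?_, Finset.mem_univ _⟩, Sym2.eq_swap⟩
      have := (h1 _ hx).2 i
      simpa using this
  have e1 : ∑ x ∈ Λ0, ∑ i, bnd J x i σ = ∑ e ∈ posE Λ0, bond J σ e := by
    rw [sum_posE]
    rfl
  have e2 : ham J Λ σ - ∑ e ∈ posE Λ0, bond J σ e = ∑ e ∈ edgesOf Λ \ posE Λ0, bond J σ e := by
    unfold ham
    rw [← Finset.sum_sdiff hs0]
    ring
  rw [e1, e2]
  have hb : ∀ e ∈ edgesOf Λ \ posE Λ0, |bond J σ e| ≤ 1 := by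
    intro e _
    induction e using Sym2.ind with
    | _ u v =>
      rw [Basic.bond_mk, abs_mul, abs_mul, sg_abs, sg_abs, mul_one, mul_one]
      exact InfAux.abs_Jc_le J u v
  calc |∑ e ∈ edgesOf Λ \ posE Λ0, bond J σ e| ≤ ∑ e ∈ edgesOf Λ \ posE Λ0, |bond J σ e| :=
        Finset.abs_sum_le_sum_abs _ _
    _ ≤ ∑ e ∈ edgesOf Λ \ posE Λ0, (1 : ℝ) := Finset.sum_le_sum hb
    _ = ((edgesOf Λ \ posE Λ0).card : ℝ) := by simp
    _ ≤ ((posE Λ1 \ posE Λ0).card : ℝ) := by
        exact_mod_cast Finset.card_le_card (Finset.sdiff_subset_sdiff hs1 le_rfl)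
    _ = ((posE Λ1).card : ℝ) - ((posE Λ0).card : ℝ) := by
        rw [Finset.card_sdiff_of_subset (hs0.trans hs1), Nat.cast_sub
          (Finset.card_le_card (hs0.trans hs1))]
    _ = _ := by rw [card_posE, card_posE]; push_cast; ring

theorem bnd_unit (J : Coupling d) (x : Site d) (i : Fin d) :
    Unit01 (fun σ => (1 + bnd J x i σ) / 2) := by
  intro σ
  have := abs_le.1 (bnd_abs J x i σ)
  constructor <;> linarith [this.1, this.2]

theorem bnd_local (J : Coupling d) (x : Site d) (i : Fin d) :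
    LocalOn {x, x + ee i} (fun σ => (1 + bnd J x i σ) / 2) := by
  intro σ σ' h
  show (1 + bnd J x i σ) / 2 = (1 + bnd J x i σ') / 2
  unfold bnd
  rw [h x (by simp), h (x + ee i) (by simp)]

theorem gE_bnd (β : ℝ) (J : Coupling d) (Λ : Finset (Site d)) (ξ : Site d → Bool)
    (f : (Site d → Bool) → ℝ) :
    gE β J Λ ξ f = 2 * gE β J Λ ξ (fun σ => (1 + f σ) / 2) - 1 := by
  have hs := spEA β J
  have h1 := hs.lin Λ ξ (fun σ => (1 + f σ) / 2) (fun _ => 1) 2 (-1)
  rw [hs.const] at h1
  rw [show f = fun σ => 2 * ((1 + f σ) / 2) + -1 * 1 from by funext σ; ring]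
  rw [h1]
  simp only
  ring_nf

/-- decay for the bond energies -/
theorem bnd_decay {β : ℝ} {J : Coupling d} {K : Site d → ℝ} {a : ℝ}
    (hD : DecaysAt (gE β J) K a) (x : Site d) (i : Fin d) (n : ℕ) (τ τ' : Site d → Bool) :
    |gE β J (ball x n) τ (bnd J x i) - gE β J (ball x n) τ' (bnd J x i)| ≤
      2 * ((K x + K (x + ee i)) * Real.exp (-(a * n))) := by
  have h1 := hD {x, x + ee i} (ball x n) _ (bnd_unit J x i) (bnd_local J x i) n τ τ' (by
    intro z hz y hy _
    have hy' : ¬ dist1 x y ≤ n := fun h => hy ((chain_mem_ball x y n).2 h)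
    rw [Finset.mem_insert, Finset.mem_singleton] at hz
    rcases hz with rfl | rfl
    · omega
    · have h2 := chain_dist_tri x (x + ee i) y
      rw [dist_ee] at h2
      omega)
  have hne : x ≠ x + ee i := by
    intro h
    have := dist_ee x i
    rw [← h, InfAux.dist_self] at this
    omega
  rw [Finset.sum_pair hne] at h1
  rw [gE_bnd β J (ball x n) τ, gE_bnd β J (ball x n) τ']
  have e1 : 2 * gE β J (ball x n) τ (fun σ => (1 + bnd J x i σ) / 2) - 1 -
      (2 * gE β J (ball x n) τ' (fun σ => (1 + bnd J x i σ) / 2) - 1) =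
      2 * (gE β J (ball x n) τ (fun σ => (1 + bnd J x i σ) / 2) -
        gE β J (ball x n) τ' (fun σ => (1 + bnd J x i σ) / 2)) := by ring
  rw [e1, abs_mul, abs_two]
  linarith

theorem bnd_volume {β : ℝ} {J : Coupling d} {K : Site d → ℝ} {a : ℝ}
    (hD : DecaysAt (gE β J) K a) (x : Site d) (i : Fin d) (n : ℕ) (Λ : Finset (Site d))
    (hΛ : ball x n ⊆ Λ) (ξ τ' : Site d → Bool) :
    |gE β J Λ ξ (bnd J x i) - gE β J (ball x n) τ' (bnd J x i)| ≤
      2 * ((K x + K (x + ee i)) * Real.exp (-(a * n))) := by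
  have hs := spEA β J
  rw [hs.cons Λ ξ (ball x n) hΛ]
  exact Sp.near hs Λ ξ _ _ _ fun η => bnd_decay hD x i n _ _

theorem gE_abs (β : ℝ) (J : Coupling d) (Λ : Finset (Site d)) (ξ : Site d → Bool)
    {f : (Site d → Bool) → ℝ} {B : ℝ} (hf : ∀ σ, |f σ| ≤ B) : |gE β J Λ ξ f| ≤ B := by
  have h := Sp.near (spEA β J) Λ ξ f 0 B fun η => by simpa using hf _
  simpa using h

theorem bnd_dep (J J' : Coupling d) (x : Site d) (i : Fin d)
    (h : ∀ e ∈ edF {x}, J e = J' e) : bnd J x i = bnd J' x i := by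
  funext σ
  unfold bnd
  congr 2
  unfold Jc
  by_cases hadj : (lat d).Adj x (x + ee i)
  · rw [dif_pos hadj, dif_pos hadj]
    congr 1
    refine h _ ((mem_edF _ _).2 ?_)
    exact Basic.mem_edgesOf.2 ⟨x, Finset.mem_singleton_self _, _, hadj, rfl⟩
  · rw [dif_neg hadj, dif_neg hadj]

theorem meas_gE_bnd (β : ℝ) (x : Site d) (i : Fin d) (Λ : Finset (Site d)) (ξ : Site d → Bool) :
    Measurable fun J : Coupling d => gE β J Λ ξ (bnd J x i) := by
  classical
  refine meas_dep (edF Λ ∪ edF {x}) _ fun J J' h => ?_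
  rw [bnd_dep J J' x i fun e he => h e (Finset.mem_union_right _ he)]
  exact FS.gE_coupling β Λ (fun e he heL =>
      h ⟨e, he⟩ (Finset.mem_union_left _ ((mem_edF _ _).2 heL))) _ _

theorem int_gE_bnd (β : ℝ) (x : Site d) (i : Fin d) (Λ : Finset (Site d)) (ξ : Site d → Bool) :
    Integrable (fun J : Coupling d => gE β J Λ ξ (bnd J x i)) (couplingLaw d) :=
  Integrable.of_bound (meas_gE_bnd β x i Λ ξ).aestronglyMeasurable 1 (ae_of_all _ fun J => by
    rw [Real.norm_eq_abs]; exact gE_abs β J Λ ξ (bnd_abs J x i))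

/-- the expected bond energies converge, uniformly in the volumes and the positions -/
theorem energy_limit {β a C : ℝ} (ha : 0 < a) (K : Site d → Coupling d → ℝ)
    (hK : ∀ x, (∀ J, 0 ≤ K x J) ∧ Integrable (K x) (couplingLaw d) ∧
      ∫ J, K x J ∂(couplingLaw d) ≤ C)
    (hD : ∀ᵐ J ∂(couplingLaw d), DecaysAt (gE β J) (fun x => K x J) a)
    (π : Coupling d → Measure (Site d → Bool))
    (hπ : ∀ᵐ J ∂(couplingLaw d), IsGibbs β J (π J)) (i : Fin d) (n : ℕ) (x : Site d)
    (Λ : Finset (Site d)) (hΛ : ball x n ⊆ Λ) (ξ : Site d → Bool) :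
    |∫ J, gE β J Λ ξ (bnd J x i) ∂(couplingLaw d) -
      ∫ J, ∫ σ, bnd J 0 i σ ∂(π J) ∂(couplingLaw d)| ≤ 8 * C * Real.exp (-(a * n)) := by
  have hE0 : 0 < Real.exp (-(a * n)) := Real.exp_pos _
  -- first comparison
  have h1 : |∫ J, gE β J Λ ξ (bnd J x i) ∂(couplingLaw d) -
      ∫ J, gE β J (ball x n) (fun _ => true) (bnd J x i) ∂(couplingLaw d)| ≤
      4 * C * Real.exp (-(a * n)) := by
    rw [← integral_sub (int_gE_bnd β x i Λ ξ) (int_gE_bnd β x i _ _)]
    calc |∫ J, (gE β J Λ ξ (bnd J x i) - gE β J (ball x n) (fun _ => true) (bnd J x i))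
          ∂(couplingLaw d)| ≤ ∫ J, |gE β J Λ ξ (bnd J x i) -
            gE β J (ball x n) (fun _ => true) (bnd J x i)| ∂(couplingLaw d) :=
          abs_integral_le_integral_abs
      _ ≤ ∫ J, 2 * ((K x J + K (x + ee i) J) * Real.exp (-(a * n))) ∂(couplingLaw d) := by
          refine integral_mono_ae
            ((int_gE_bnd β x i Λ ξ).sub (int_gE_bnd β x i _ _)).abs
            ((((hK x).2.1.add (hK (x + ee i)).2.1).mul_const _).const_mul 2) ?_
          filter_upwards [hD] with J hJ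
          exact bnd_volume hJ x i n Λ hΛ ξ _
      _ = 2 * ((∫ J, K x J ∂(couplingLaw d) + ∫ J, K (x + ee i) J ∂(couplingLaw d)) *
            Real.exp (-(a * n))) := by
          rw [integral_const_mul, integral_mul_const, integral_add (hK x).2.1 (hK _).2.1]
      _ ≤ 2 * ((C + C) * Real.exp (-(a * n))) := by
          have := (hK x).2.2
          have := (hK (x + ee i)).2.2
          gcongr
      _ = _ := by ring
  rw [bnd_translate β x i n] at h1
  -- second comparison
  have hpt : ∀ᵐ J ∂(couplingLaw d), |gE β J (ball 0 n) (fun _ => true) (bnd J 0 i) -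
      ∫ σ, bnd J 0 i σ ∂(π J)| ≤ 2 * ((K 0 J + K (0 + ee i) J) * Real.exp (-(a * n))) := by
    filter_upwards [hD, hπ] with J hJ hg
    have := hg.1
    have mf : Measurable (bnd J 0 i) := by
      have h2 := EA.meas_local (bnd_local J 0 i)
      have h3 : bnd J 0 i = fun σ => 2 * ((1 + bnd J 0 i σ) / 2) - 1 := by
        funext σ; ring
      rw [h3]
      exact (h2.const_mul 2).sub_const 1
    rw [← FS.gE_fun] at hJ ⊢
    rw [← EA.isGibbs_iff] at hg
    set W := EA.cpl β (fun _ => 1) (fun _ => 1) J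
    have mg := EA.meas_gE W (fun _ => 0) (ball 0 n) (bnd J 0 i) mf
    have hdl := EA.dlr W (fun _ => 0) hg (ball 0 n) (bnd J 0 i) mf 1 (bnd_abs J 0 i)
    have hb : ∀ τ τ', |EA.gE W (fun _ => 0) (ball 0 n) τ (bnd J 0 i) -
        EA.gE W (fun _ => 0) (ball 0 n) τ' (bnd J 0 i)| ≤
        2 * ((K 0 J + K (0 + ee i) J) * Real.exp (-(a * n))) := by
      intro τ τ'
      rw [FS.gE_fun] at hJ
      have := bnd_decay hJ 0 i n τ τ'
      rw [← FS.gE_fun] at this
      exact this
    have hgi : Integrable (fun τ => EA.gE W (fun _ => 0) (ball 0 n) τ (bnd J 0 i)) (π J) := by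
      refine Integrable.of_bound mg.aestronglyMeasurable 1 (ae_of_all _ fun τ => ?_)
      rw [Real.norm_eq_abs]
      have := gE_abs β J (ball 0 n) τ (bnd_abs J 0 i)
      rw [← FS.gE_fun] at this
      exact this
    rw [← hdl]
    have e1 : EA.gE W (fun _ => 0) (ball 0 n) (fun _ => true) (bnd J 0 i) -
        ∫ τ, EA.gE W (fun _ => 0) (ball 0 n) τ (bnd J 0 i) ∂(π J) =
        ∫ τ, (EA.gE W (fun _ => 0) (ball 0 n) (fun _ => true) (bnd J 0 i) -
          EA.gE W (fun _ => 0) (ball 0 n) τ (bnd J 0 i)) ∂(π J) := by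
      rw [integral_sub (integrable_const _) hgi]
      simp
    rw [e1]
    have := norm_integral_le_of_norm_le_const (μ := π J) (f := fun τ =>
      EA.gE W (fun _ => 0) (ball 0 n) (fun _ => true) (bnd J 0 i) -
        EA.gE W (fun _ => 0) (ball 0 n) τ (bnd J 0 i))
      (C := 2 * ((K 0 J + K (0 + ee i) J) * Real.exp (-(a * n)))) (ae_of_all _ fun τ => by
        rw [Real.norm_eq_abs]; exact hb _ τ)
    simpa using this
  have hKi : Integrable (fun J => 2 * ((K 0 J + K (0 + ee i) J) * Real.exp (-(a * n))))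
      (couplingLaw d) := (((hK 0).2.1.add (hK (0 + ee i)).2.1).mul_const _).const_mul 2
  have hmeas : AEStronglyMeasurable (fun J => ∫ σ, bnd J 0 i σ ∂(π J)) (couplingLaw d) := by
    have hlimK : ∀ᵐ J ∂(couplingLaw d), Tendsto (fun n : ℕ =>
        gE β J (ball 0 n) (fun _ => true) (bnd J 0 i)) atTop
        (𝓝 (∫ σ, bnd J 0 i σ ∂(π J))) := by
      have hall : ∀ᵐ J ∂(couplingLaw d), ∀ n : ℕ,
          |gE β J (ball 0 n) (fun _ => true) (bnd J 0 i) - ∫ σ, bnd J 0 i σ ∂(π J)| ≤
            2 * ((K 0 J + K (0 + ee i) J) * Real.exp (-(a * n))) := by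
        filter_upwards [hD, hπ] with J hJ hg n
        have := hg.1
        have mf : Measurable (bnd J 0 i) := by
          have h2 := EA.meas_local (bnd_local J 0 i)
          have h3 : bnd J 0 i = fun σ => 2 * ((1 + bnd J 0 i σ) / 2) - 1 := by
            funext σ; ring
          rw [h3]
          exact (h2.const_mul 2).sub_const 1
        have hg' := (EA.isGibbs_iff β J (π J)).2 hg
        have hdl := EA.dlr (EA.cpl β (fun _ => 1) (fun _ => 1) J) (fun _ => 0) hg' (ball 0 n)
          (bnd J 0 i) mf 1 (bnd_abs J 0 i)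
        have mg := EA.meas_gE (EA.cpl β (fun _ => 1) (fun _ => 1) J) (fun _ => 0) (ball 0 n)
          (bnd J 0 i) mf
        rw [FS.gE_fun] at hdl mg
        have hgi : Integrable (fun τ => gE β J (ball 0 n) τ (bnd J 0 i)) (π J) :=
          Integrable.of_bound mg.aestronglyMeasurable 1 (ae_of_all _ fun τ => by
            rw [Real.norm_eq_abs]; exact gE_abs β J (ball 0 n) τ (bnd_abs J 0 i))
        rw [← hdl]
        have e1 : gE β J (ball 0 n) (fun _ => true) (bnd J 0 i) -
            ∫ τ, gE β J (ball 0 n) τ (bnd J 0 i) ∂(π J) =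
            ∫ τ, (gE β J (ball 0 n) (fun _ => true) (bnd J 0 i) -
              gE β J (ball 0 n) τ (bnd J 0 i)) ∂(π J) := by
          rw [integral_sub (integrable_const _) hgi]
          simp
        rw [e1]
        have := norm_integral_le_of_norm_le_const (μ := π J) (f := fun τ =>
          gE β J (ball 0 n) (fun _ => true) (bnd J 0 i) - gE β J (ball 0 n) τ (bnd J 0 i))
          (C := 2 * ((K 0 J + K (0 + ee i) J) * Real.exp (-(a * n)))) (ae_of_all _ fun τ => by
            rw [Real.norm_eq_abs]; exact bnd_decay hJ 0 i n _ τ)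
        simpa using this
      filter_upwards [hall] with J hJ
      have hlim : Tendsto (fun n : ℕ => 2 * ((K 0 J + K (0 + ee i) J) * Real.exp (-(a * n))))
          atTop (𝓝 0) := by
        have h1 : Tendsto (fun n : ℕ => Real.exp (-(a * n))) atTop (𝓝 0) := by
          apply Real.tendsto_exp_neg_atTop_nhds_zero.comp
          exact tendsto_natCast_atTop_atTop.const_mul_atTop ha
        simpa using (h1.const_mul (K 0 J + K (0 + ee i) J)).const_mul 2
      have h5 : Tendsto (fun n : ℕ => gE β J (ball 0 n) (fun _ => true) (bnd J 0 i) -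
          ∫ σ, bnd J 0 i σ ∂(π J)) atTop (𝓝 0) := squeeze_zero_norm hJ hlim
      have h6 := h5.add_const (∫ σ, bnd J 0 i σ ∂(π J))
      simpa using h6
    exact aestronglyMeasurable_of_tendsto_ae atTop
      (fun n => (meas_gE_bnd β 0 i (ball 0 n) (fun _ => true)).aestronglyMeasurable) hlimK
  have hπi : Integrable (fun J => ∫ σ, bnd J 0 i σ ∂(π J)) (couplingLaw d) := by
    refine Integrable.of_bound hmeas 1 ?_
    filter_upwards [hπ] with J hg
    have := hg.1
    have := norm_integral_le_of_norm_le_const (μ := π J) (f := bnd J 0 i) (C := 1)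
      (ae_of_all _ fun σ => by rw [Real.norm_eq_abs]; exact bnd_abs J 0 i σ)
    simpa using this
  have h2 : |∫ J, gE β J (ball 0 n) (fun _ => true) (bnd J 0 i) ∂(couplingLaw d) -
      ∫ J, ∫ σ, bnd J 0 i σ ∂(π J) ∂(couplingLaw d)| ≤ 4 * C * Real.exp (-(a * n)) := by
    rw [← integral_sub (int_gE_bnd β 0 i _ _) hπi]
    calc _ ≤ ∫ J, |gE β J (ball 0 n) (fun _ => true) (bnd J 0 i) -
            ∫ σ, bnd J 0 i σ ∂(π J)| ∂(couplingLaw d) := abs_integral_le_integral_abs
      _ ≤ ∫ J, 2 * ((K 0 J + K (0 + ee i) J) * Real.exp (-(a * n))) ∂(couplingLaw d) :=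
          integral_mono_ae ((int_gE_bnd β 0 i _ _).sub hπi).abs hKi hpt
      _ = 2 * ((∫ J, K 0 J ∂(couplingLaw d) + ∫ J, K (0 + ee i) J ∂(couplingLaw d)) *
            Real.exp (-(a * n))) := by
          rw [integral_const_mul, integral_mul_const, integral_add (hK 0).2.1 (hK _).2.1]
      _ ≤ 2 * ((C + C) * Real.exp (-(a * n))) := by
          have := (hK 0).2.2
          have := (hK (0 + ee i)).2.2
          gcongr
      _ = _ := by ring
  calc _ ≤ _ + _ := abs_sub_le _ (∫ J, gE β J (ball 0 n) (fun _ => true) (bnd J 0 i)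
        ∂(couplingLaw d)) _
    _ ≤ 4 * C * Real.exp (-(a * n)) + 4 * C * Real.exp (-(a * n)) := add_le_add h1 h2
    _ = _ := by ring

end Pool.Agent.Helper79K9.SM
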