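import Pool.Agent.Helper79K9.SM.Press2

/-!
# The pressure
-/

set_option autoImplicit false

open Set Filter Topology MeasureTheory
open scoped ContDiff

namespace Pool.Agent.Helper79K9.SM

open Pool.H47EA
open Pool.Agent.Helper79K9.FS (spEA DecaysAt phase)

variable {d : ℕ}

/-- the box `[-N, N]^d` -/
noncomputable def Box (d N : ℕ) : Finset (Site d) :=
  Finset.Icc (fun _ => -(N : ℤ)) (fun _ => (N : ℤ))

theorem card_Box (N : ℕ) : (Box d N).card = (2 * N + 1) ^ d := by
  unfold Box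
  rw [Pi.card_Icc]
  simp only [Int.card_Icc, Finset.prod_const, Finset.card_univ, Fintype.card_fin]
  congr 1
  omega

theorem mem_Box (N : ℕ) (x : Site d) : x ∈ Box d N ↔ ∀ i, (x i).natAbs ≤ N := by
  unfold Box
  rw [Finset.mem_Icc]
  constructor
  · rintro ⟨h1, h2⟩ i
    have := h1 i
    have := h2 i
    simp only at *
    omega
  · intro h
    constructor <;> intro i <;> have := h i <;> simp only <;> omega

theorem ball_Box {n N : ℕ} (hn : n ≤ N) {x : Site d} (hx : x ∈ Box d (N - n)) :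
    ball x n ⊆ Box d N := by
  intro y hy
  rw [chain_mem_ball] at hy
  rw [mem_Box] at hx ⊢
  intro i
  have h1 := hx i
  have h2 : (x i - y i).natAbs ≤ dist1 x y :=
    Finset.single_le_sum (f := fun i => (x i - y i).natAbs) (fun _ _ => Nat.zero_le _)
      (Finset.mem_univ i)
  omega

theorem Box_mono {n N : ℕ} (h : n ≤ N) : Box d n ⊆ Box d N := by
  intro x hx
  rw [mem_Box] at hx ⊢
  exact fun i => (hx i).trans h

theorem Box_succ {N : ℕ} {x : Site d} (hx : x ∈ Box d N) :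
    x ∈ Box d (N + 1) ∧ ∀ i, x - ee i ∈ Box d (N + 1) := by
  refine ⟨Box_mono (Nat.le_succ N) hx, fun i => ?_⟩
  rw [mem_Box] at hx ⊢
  intro j
  have h1 := hx j
  unfold ee
  by_cases hj : j = i
  · subst hj
    rw [Pi.sub_apply, Pi.single_eq_same]
    omega
  · rw [Pi.sub_apply, Pi.single_eq_of_ne hj]
    omega

/-- the energy of the volume -/
noncomputable def en (β : ℝ) (J : Coupling d) (Λ : Finset (Site d)) (ξ : Site d → Bool) : ℝ :=
  gE β J Λ ξ (ham J Λ)

theorem ham_abs (J : Coupling d) (Λ : Finset (Site d)) (σ : Site d → Bool) :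
    |ham J Λ σ| ≤ 2 * d * Λ.card := by
  refine (FS.ham_bound J Λ σ).trans ?_
  have h3 : (edgesOf Λ).card ≤ Λ.card * (2 * d) := by
    unfold edgesOf
    exact Finset.card_biUnion_le_card_mul Λ _ (2 * d) fun y _ =>
      Finset.card_image_le.trans (InfAux.nbr_card y)
  have : ((edgesOf Λ).card : ℝ) ≤ Λ.card * (2 * d) := by exact_mod_cast h3
  linarith

theorem en_abs (β : ℝ) (J : Coupling d) (Λ : Finset (Site d)) (ξ : Site d → Bool) :
    |en β J Λ ξ| ≤ 2 * d * Λ.card := gE_abs β J Λ ξ (ham_abs J Λ)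

theorem logZ_deriv (β : ℝ) (J : Coupling d) (Λ : Finset (Site d)) (ξ : Site d → Bool) :
    HasDerivAt (fun b => Real.log (Zp b J Λ ξ)) (en β J Λ ξ) β := by
  have hZ : HasDerivAt (fun b => Zp b J Λ ξ)
      (∑ η : Λ → Bool, Real.exp (β * ham J Λ (glue Λ η ξ)) * ham J Λ (glue Λ η ξ)) β := by
    unfold Zp
    refine HasDerivAt.fun_sum fun η _ => ?_
    have h1 : HasDerivAt (fun b => b * ham J Λ (glue Λ η ξ)) (ham J Λ (glue Λ η ξ)) β := by
      simpa using (hasDerivAt_id β).mul_const (ham J Λ (glue Λ η ξ))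
    exact h1.exp
  have h0 : Zp β J Λ ξ ≠ 0 := (Basic.Zp_pos β J Λ ξ).ne'
  exact hZ.log h0

theorem en_cont (J : Coupling d) (Λ : Finset (Site d)) (ξ : Site d → Bool) :
    Continuous fun β => en β J Λ ξ := by
  unfold en gE
  refine Continuous.div ?_ ?_ fun β => (Basic.Zp_pos β J Λ ξ).ne'
  · fun_prop
  · unfold Zp
    fun_prop

theorem en_meas (β : ℝ) (Λ : Finset (Site d)) (ξ : Site d → Bool) :
    Measurable fun J : Coupling d => en β J Λ ξ := by
  refine meas_dep (edF Λ) _ fun J J' h => ?_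
  have h' : ∀ e (he : e ∈ (lat d).edgeSet), e ∈ edgesOf Λ → J ⟨e, he⟩ = J' ⟨e, he⟩ :=
    fun e he heL => h ⟨e, he⟩ ((mem_edF Λ _).2 heL)
  unfold en
  rw [FS.gE_coupling β Λ h']
  congr 1
  funext σ
  exact FS.ham_coupling Λ h' σ

theorem logZ_meas (β : ℝ) (Λ : Finset (Site d)) (ξ : Site d → Bool) :
    Measurable fun J : Coupling d => Real.log (Zp β J Λ ξ) := by
  refine meas_dep (edF Λ) _ fun J J' h => ?_
  have h' : ∀ e (he : e ∈ (lat d).edgeSet), e ∈ edgesOf Λ → J ⟨e, he⟩ = J' ⟨e, he⟩ :=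
    fun e he heL => h ⟨e, he⟩ ((mem_edF Λ _).2 heL)
  unfold Zp
  simp only [FS.ham_coupling Λ h']

theorem logZ_zero (J : Coupling d) (Λ : Finset (Site d)) (ξ : Site d → Bool) :
    Real.log (Zp 0 J Λ ξ) = Λ.card * Real.log 2 := by
  unfold Zp
  simp

/-- the quenched free energy of a volume -/
noncomputable def FE (β : ℝ) (Λ : Finset (Site d)) (ξ : Site d → Bool) : ℝ :=
  ∫ J, Real.log (Zp β J Λ ξ) ∂(couplingLaw d)

/-- the quenched energy of a volume -/
noncomputable def EN (β : ℝ) (Λ : Finset (Site d)) (ξ : Site d → Bool) : ℝ :=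
  ∫ J, en β J Λ ξ ∂(couplingLaw d)

theorem en_int (β : ℝ) (Λ : Finset (Site d)) (ξ : Site d → Bool) :
    Integrable (fun J : Coupling d => en β J Λ ξ) (couplingLaw d) :=
  Integrable.of_bound (en_meas β Λ ξ).aestronglyMeasurable _ (ae_of_all _ fun J => by
    rw [Real.norm_eq_abs]; exact en_abs β J Λ ξ)

theorem logZ_bound (β : ℝ) (J : Coupling d) (Λ : Finset (Site d)) (ξ : Site d → Bool) :
    |Real.log (Zp β J Λ ξ)| ≤ Λ.card * Real.log 2 + 2 * d * Λ.card * |β| := by
  have h1 : |Real.log (Zp β J Λ ξ) - Real.log (Zp 0 J Λ ξ)| ≤ 2 * d * Λ.card * |β - 0| := by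
    have := Convex.norm_image_sub_le_of_norm_hasDerivWithin_le (s := Set.univ)
      (f := fun b => Real.log (Zp b J Λ ξ)) (f' := fun b => en b J Λ ξ)
      (C := 2 * d * Λ.card) (x := 0) (y := β)
      (fun b _ => (logZ_deriv b J Λ ξ).hasDerivWithinAt)
      (fun b _ => by rw [Real.norm_eq_abs]; exact en_abs b J Λ ξ) convex_univ (mem_univ _)
      (mem_univ _)
    simpa [Real.norm_eq_abs] using this
  rw [logZ_zero, sub_zero] at h1
  have h2 : 0 ≤ (Λ.card : ℝ) * Real.log 2 := by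
    have := Real.log_nonneg (show (1 : ℝ) ≤ 2 by norm_num)
    positivity
  rw [abs_le] at h1 ⊢
  constructor <;> linarith [h1.1, h1.2]

theorem logZ_int (β : ℝ) (Λ : Finset (Site d)) (ξ : Site d → Bool) :
    Integrable (fun J : Coupling d => Real.log (Zp β J Λ ξ)) (couplingLaw d) :=
  Integrable.of_bound (logZ_meas β Λ ξ).aestronglyMeasurable _ (ae_of_all _ fun J => by
    rw [Real.norm_eq_abs]; exact logZ_bound β J Λ ξ)

theorem FE_deriv (β : ℝ) (Λ : Finset (Site d)) (ξ : Site d → Bool) :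
    HasDerivAt (fun b => FE b Λ ξ) (EN β Λ ξ) β := by
  unfold FE EN
  exact (hasDerivAt_integral_of_dominated_loc_of_deriv_le (μ := couplingLaw d)
    (F := fun b J => Real.log (Zp b J Λ ξ)) (F' := fun b J => en b J Λ ξ)
    (bound := fun _ => 2 * d * Λ.card) (s := Set.univ) Filter.univ_mem
    (Filter.Eventually.of_forall fun b => (logZ_meas b Λ ξ).aestronglyMeasurable)
    (logZ_int β Λ ξ) (en_meas β Λ ξ).aestronglyMeasurable
    (ae_of_all _ fun J b _ => by rw [Real.norm_eq_abs]; exact en_abs b J Λ ξ)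
    (integrable_const _) (ae_of_all _ fun J b _ => logZ_deriv b J Λ ξ)).2

theorem EN_cont (Λ : Finset (Site d)) (ξ : Site d → Bool) : Continuous fun β => EN β Λ ξ := by
  unfold EN
  exact continuous_of_dominated (bound := fun _ => 2 * d * Λ.card)
    (fun β => (en_meas β Λ ξ).aestronglyMeasurable)
    (fun β => ae_of_all _ fun J => by rw [Real.norm_eq_abs]; exact en_abs β J Λ ξ)
    (integrable_const _) (ae_of_all _ fun J => en_cont J Λ ξ)

theorem EN_abs (β : ℝ) (Λ : Finset (Site d)) (ξ : Site d → Bool) :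
    |EN β Λ ξ| ≤ 2 * d * Λ.card := by
  have := norm_integral_le_of_norm_le_const (μ := couplingLaw d)
    (f := fun J => en β J Λ ξ) (C := 2 * d * Λ.card)
    (ae_of_all _ fun J => by rw [Real.norm_eq_abs]; exact en_abs β J Λ ξ)
  simpa [EN] using this

theorem FE_eq (β : ℝ) (Λ : Finset (Site d)) (ξ : Site d → Bool) :
    FE β Λ ξ = Λ.card * Real.log 2 + ∫ b in (0 : ℝ)..β, EN b Λ ξ := by
  have h1 := intervalIntegral.integral_eq_sub_of_hasDerivAt (a := 0) (b := β)
    (f := fun b => FE b Λ ξ) (f' := fun b => EN b Λ ξ) (fun b _ => FE_deriv b Λ ξ)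
    ((EN_cont Λ ξ).intervalIntegrable 0 β)
  have h0 : FE 0 Λ ξ = Λ.card * Real.log 2 := by
    unfold FE
    simp only [logZ_zero, integral_const, probReal_univ, smul_eq_mul, one_mul]
  rw [h1, h0]
  ring

/-- the energy per site converges -/
theorem EN_limit {β a C : ℝ} (ha : 0 < a) (K : Site d → Coupling d → ℝ)
    (hK : ∀ x, (∀ J, 0 ≤ K x J) ∧ Integrable (K x) (couplingLaw d) ∧
      ∫ J, K x J ∂(couplingLaw d) ≤ C)
    (hD : ∀ᵐ J ∂(couplingLaw d), DecaysAt (gE β J) (fun x => K x J) a)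
    (π : Coupling d → Measure (Site d → Bool))
    (hπ : ∀ᵐ J ∂(couplingLaw d), IsGibbs β J (π J)) (ξ : ℕ → Site d → Bool) :
    Tendsto (fun N => EN β (Box d N) (ξ N) / (2 * N + 1) ^ d) atTop
      (𝓝 (∑ i, ∫ J, ∫ σ, bnd J 0 i σ ∂(π J) ∂(couplingLaw d))) := by
  set u : Fin d → ℝ := fun i => ∫ J, ∫ σ, bnd J 0 i σ ∂(π J) ∂(couplingLaw d) with hu
  have hC0 : 0 ≤ C := (integral_nonneg (hK 0).1).trans (hK 0).2.2
  have hu1 : ∀ i, |u i| ≤ 1 := by
    intro i
    have hae : ∀ᵐ J ∂(couplingLaw d), ‖∫ σ, bnd J 0 i σ ∂(π J)‖ ≤ 1 := by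
      filter_upwards [hπ] with J hg
      have := hg.1
      have := norm_integral_le_of_norm_le_const (μ := π J) (f := bnd J 0 i) (C := 1)
        (ae_of_all _ fun σ => by rw [Real.norm_eq_abs]; exact bnd_abs J 0 i σ)
      simpa using this
    have := norm_integral_le_of_norm_le_const (μ := couplingLaw d) hae
    simpa [hu] using this
  -- the bound for given n
  have hmain : ∀ n N : ℕ, n ≤ N → |EN β (Box d N) (ξ N) - (2 * N + 1 : ℝ) ^ d * ∑ i, u i| ≤
      2 * (((2 * (N + 1 : ℕ) + 1 : ℝ) ^ d - (2 * (N - n : ℕ) + 1 : ℝ) ^ d) * d) +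
        (2 * N + 1 : ℝ) ^ d * (d * (8 * C * Real.exp (-(a * n)))) := by
    intro n N hn
    have hc0 : ((Box d (N - n)).card : ℝ) = (2 * (N - n : ℕ) + 1 : ℝ) ^ d := by
      rw [card_Box]; push_cast; rfl
    have hc1 : ((Box d (N + 1)).card : ℝ) = (2 * (N + 1 : ℕ) + 1 : ℝ) ^ d := by
      rw [card_Box]; push_cast; rfl
    have hle : (2 * (N - n : ℕ) + 1 : ℝ) ^ d ≤ (2 * N + 1 : ℝ) ^ d := by
      gcongr
      exact_mod_cast Nat.sub_le N n
    have hle1 : (2 * N + 1 : ℝ) ^ d ≤ (2 * (N + 1 : ℕ) + 1 : ℝ) ^ d := by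
      gcongr
      exact_mod_cast Nat.le_succ N
    -- pointwise: energy of the volume against the bonds of the inner box
    have hp : ∀ J : Coupling d, |en β J (Box d N) (ξ N) - ∑ x ∈ Box d (N - n), ∑ i,
        gE β J (Box d N) (ξ N) (bnd J x i)| ≤
        ((2 * (N + 1 : ℕ) + 1 : ℝ) ^ d - (2 * (N - n : ℕ) + 1 : ℝ) ^ d) * d := by
      intro J
      have hs := spEA β J
      have hsum : ∀ (S : Finset (Site d)), gE β J (Box d N) (ξ N)
          (fun σ => ∑ x ∈ S, ∑ i, bnd J x i σ) =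
          ∑ x ∈ S, ∑ i, gE β J (Box d N) (ξ N) (bnd J x i) := by
        have hadd : ∀ f g : (Site d → Bool) → ℝ, gE β J (Box d N) (ξ N) (fun σ => f σ + g σ) =
            gE β J (Box d N) (ξ N) f + gE β J (Box d N) (ξ N) g := by
          intro f g
          have := hs.lin (Box d N) (ξ N) f g 1 1
          simpa using this
        have hfs : ∀ {ι : Type} (T : Finset ι) (g : ι → (Site d → Bool) → ℝ),
            gE β J (Box d N) (ξ N) (fun σ => ∑ j ∈ T, g j σ) =
              ∑ j ∈ T, gE β J (Box d N) (ξ N) (g j) := by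
          classical
          intro ι T g
          induction T using Finset.induction_on with
          | empty =>
            simp only [Finset.sum_empty]
            exact hs.const _ _ 0
          | insert j T hj ih =>
            simp only [Finset.sum_insert hj]
            rw [hadd, ih]
        intro S
        rw [hfs S fun x σ => ∑ i, bnd J x i σ]
        exact Finset.sum_congr rfl fun x _ => hfs Finset.univ fun i => bnd J x i
      rw [← hsum]
      have hdiff : en β J (Box d N) (ξ N) - gE β J (Box d N) (ξ N)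
          (fun σ => ∑ x ∈ Box d (N - n), ∑ i, bnd J x i σ) =
          gE β J (Box d N) (ξ N) (fun σ => ham J (Box d N) σ -
            ∑ x ∈ Box d (N - n), ∑ i, bnd J x i σ) := by
        have := hs.lin (Box d N) (ξ N) (ham J (Box d N))
          (fun σ => ∑ x ∈ Box d (N - n), ∑ i, bnd J x i σ) 1 (-1)
        unfold en
        rw [show (fun σ => ham J (Box d N) σ - ∑ x ∈ Box d (N - n), ∑ i, bnd J x i σ) =
          fun σ => 1 * ham J (Box d N) σ + -1 * ∑ x ∈ Box d (N - n), ∑ i, bnd J x i σ from by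
            funext σ; ring, this]
        ring
      rw [hdiff]
      refine gE_abs β J (Box d N) (ξ N) fun σ => ?_
      rw [← hc0, ← hc1]
      exact ham_inner J (Box d (N - n)) (Box d N) (Box d (N + 1)) (Box_mono (Nat.sub_le N n))
        (fun x hx => Box_succ hx) σ
    have hE : |EN β (Box d N) (ξ N) - ∑ x ∈ Box d (N - n), ∑ i,
        ∫ J, gE β J (Box d N) (ξ N) (bnd J x i) ∂(couplingLaw d)| ≤
        ((2 * (N + 1 : ℕ) + 1 : ℝ) ^ d - (2 * (N - n : ℕ) + 1 : ℝ) ^ d) * d := by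
      have e1 : ∑ x ∈ Box d (N - n), ∑ i,
          ∫ J, gE β J (Box d N) (ξ N) (bnd J x i) ∂(couplingLaw d) =
          ∫ J, ∑ x ∈ Box d (N - n), ∑ i, gE β J (Box d N) (ξ N) (bnd J x i)
            ∂(couplingLaw d) := by
        rw [integral_finset_sum _ fun x _ => integrable_finset_sum _ fun i _ =>
          int_gE_bnd β x i _ _]
        refine Finset.sum_congr rfl fun x _ => ?_
        rw [integral_finset_sum _ fun i _ => int_gE_bnd β x i _ _]
      rw [e1]
      unfold EN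
      rw [← integral_sub (en_int β _ _) (integrable_finset_sum _ fun x _ =>
        integrable_finset_sum _ fun i _ => int_gE_bnd β x i _ _)]
      have := norm_integral_le_of_norm_le_const (μ := couplingLaw d)
        (f := fun J => en β J (Box d N) (ξ N) - ∑ x ∈ Box d (N - n), ∑ i,
          gE β J (Box d N) (ξ N) (bnd J x i))
        (ae_of_all _ fun J => by rw [Real.norm_eq_abs]; exact hp J)
      simpa using this
    have hb : |∑ x ∈ Box d (N - n), ∑ i,
        ∫ J, gE β J (Box d N) (ξ N) (bnd J x i) ∂(couplingLaw d) -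
        ∑ x ∈ Box d (N - n), ∑ i, u i| ≤
        (2 * (N - n : ℕ) + 1 : ℝ) ^ d * (d * (8 * C * Real.exp (-(a * n)))) := by
      rw [← Finset.sum_sub_distrib]
      calc _ ≤ ∑ x ∈ Box d (N - n), |∑ i,
            ∫ J, gE β J (Box d N) (ξ N) (bnd J x i) ∂(couplingLaw d) - ∑ i, u i| :=
            Finset.abs_sum_le_sum_abs _ _
        _ ≤ ∑ x ∈ Box d (N - n), (d * (8 * C * Real.exp (-(a * n)))) := by
            refine Finset.sum_le_sum fun x hx => ?_
            rw [← Finset.sum_sub_distrib]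
            calc _ ≤ ∑ i : Fin d, |∫ J, gE β J (Box d N) (ξ N) (bnd J x i) ∂(couplingLaw d) -
                  u i| := Finset.abs_sum_le_sum_abs _ _
              _ ≤ ∑ i : Fin d, 8 * C * Real.exp (-(a * n)) := by
                  refine Finset.sum_le_sum fun i _ => ?_
                  exact energy_limit ha K hK hD π hπ i n x (Box d N) (ball_Box hn hx) (ξ N)
              _ = _ := by simp
        _ = _ := by rw [Finset.sum_const, nsmul_eq_mul, hc0]
    have hc : |∑ x ∈ Box d (N - n), ∑ i, u i - (2 * N + 1 : ℝ) ^ d * ∑ i, u i| ≤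
        ((2 * N + 1 : ℝ) ^ d - (2 * (N - n : ℕ) + 1 : ℝ) ^ d) * d := by
      rw [Finset.sum_const, nsmul_eq_mul, hc0, ← sub_mul, abs_mul]
      have h1 : |∑ i, u i| ≤ d := by
        calc |∑ i, u i| ≤ ∑ i, |u i| := Finset.abs_sum_le_sum_abs _ _
          _ ≤ ∑ _i : Fin d, (1 : ℝ) := Finset.sum_le_sum fun i _ => hu1 i
          _ = d := by simp
      rw [abs_sub_comm, abs_of_nonneg (sub_nonneg.2 hle)]
      exact mul_le_mul_of_nonneg_left h1 (sub_nonneg.2 hle)
    have hd0 : (0 : ℝ) ≤ d := Nat.cast_nonneg d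
    have hE0 : 0 ≤ (d : ℝ) * (8 * C * Real.exp (-(a * n))) := by positivity
    calc _ ≤ _ + _ := abs_sub_le _ (∑ x ∈ Box d (N - n), ∑ i, u i) _
      _ ≤ (_ + _) + _ := add_le_add (abs_sub_le _ (∑ x ∈ Box d (N - n), ∑ i,
            ∫ J, gE β J (Box d N) (ξ N) (bnd J x i) ∂(couplingLaw d)) _) le_rfl
      _ ≤ ((((2 * (N + 1 : ℕ) + 1 : ℝ) ^ d - (2 * (N - n : ℕ) + 1 : ℝ) ^ d) * d) +
            (2 * (N - n : ℕ) + 1 : ℝ) ^ d * (d * (8 * C * Real.exp (-(a * n))))) +
            ((2 * N + 1 : ℝ) ^ d - (2 * (N - n : ℕ) + 1 : ℝ) ^ d) * d :=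
          add_le_add (add_le_add hE hb) hc
      _ ≤ _ := by
          have h1 := mul_le_mul_of_nonneg_right hle hE0
          have h2 := mul_le_mul_of_nonneg_right (sub_le_sub_right hle1
            ((2 * (N - n : ℕ) + 1 : ℝ) ^ d)) hd0
          linarith
  -- the ratio of the volumes
  have hratio : ∀ n : ℕ, Tendsto (fun N : ℕ => 2 * (((2 * (N + 1 : ℕ) + 1 : ℝ) ^ d -
      (2 * (N - n : ℕ) + 1 : ℝ) ^ d) * d) / (2 * N + 1) ^ d) atTop (𝓝 0) := by
    intro n
    have hN : Tendsto (fun N : ℕ => (2 * (N : ℝ) + 1)) atTop atTop :=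
      tendsto_atTop_add_const_right _ _ (tendsto_natCast_atTop_atTop.const_mul_atTop two_pos)
    have r1 : Tendsto (fun N : ℕ => (2 * (N + 1 : ℕ) + 1 : ℝ) / (2 * N + 1)) atTop (𝓝 1) := by
      have h1 : Tendsto (fun N : ℕ => 1 + 2 / (2 * (N : ℝ) + 1)) atTop (𝓝 (1 + 0)) :=
        tendsto_const_nhds.add (hN.const_div_atTop 2)
      rw [add_zero] at h1
      refine h1.congr fun N => ?_
      have : (2 * (N : ℝ) + 1) ≠ 0 := by positivity
      push_cast
      field_simp
      ring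
    have r2 : Tendsto (fun N : ℕ => (2 * (N - n : ℕ) + 1 : ℝ) / (2 * N + 1)) atTop (𝓝 1) := by
      have h1 : Tendsto (fun N : ℕ => 1 - (2 * n) / (2 * (N : ℝ) + 1)) atTop (𝓝 (1 - 0)) :=
        tendsto_const_nhds.sub (hN.const_div_atTop (2 * n))
      rw [sub_zero] at h1
      refine h1.congr' ?_
      filter_upwards [eventually_ge_atTop n] with N hNn
      have : (2 * (N : ℝ) + 1) ≠ 0 := by positivity
      rw [Nat.cast_sub hNn]
      field_simp
      ring
    have r3 := (((r1.pow d).sub (r2.pow d)).mul_const (d : ℝ)).const_mul 2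
    simp only [one_pow, sub_self, zero_mul, mul_zero] at r3
    refine r3.congr fun N => ?_
    have : (2 * (N : ℝ) + 1) ≠ 0 := by positivity
    rw [div_pow, div_pow]
    field_simp
  rw [Metric.tendsto_atTop]
  intro ε hε
  have hexp : Tendsto (fun n : ℕ => (d : ℝ) * (8 * C * Real.exp (-(a * n)))) atTop (𝓝 0) := by
    have h1 : Tendsto (fun n : ℕ => Real.exp (-(a * n))) atTop (𝓝 0) := by
      apply Real.tendsto_exp_neg_atTop_nhds_zero.comp
      exact tendsto_natCast_atTop_atTop.const_mul_atTop ha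
    simpa using (h1.const_mul (8 * C)).const_mul (d : ℝ)
  obtain ⟨n, hn⟩ := (hexp.eventually (gt_mem_nhds (half_pos hε))).exists
  obtain ⟨N0, hN0⟩ := eventually_atTop.1
    (((hratio n).eventually (gt_mem_nhds (half_pos hε))).and (eventually_ge_atTop n))
  refine ⟨N0, fun N hN => ?_⟩
  obtain ⟨h1, h2⟩ := hN0 N hN
  have hV : (0 : ℝ) < (2 * N + 1) ^ d := by positivity
  rw [Real.dist_eq]
  have e1 : EN β (Box d N) (ξ N) / (2 * N + 1) ^ d - ∑ i, u i =
      (EN β (Box d N) (ξ N) - (2 * N + 1 : ℝ) ^ d * ∑ i, u i) / (2 * N + 1) ^ d := by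
    field_simp
  rw [e1, abs_div, abs_of_pos hV]
  calc _ ≤ (2 * (((2 * (N + 1 : ℕ) + 1 : ℝ) ^ d - (2 * (N - n : ℕ) + 1 : ℝ) ^ d) * d) +
        (2 * N + 1 : ℝ) ^ d * (d * (8 * C * Real.exp (-(a * n))))) / (2 * N + 1) ^ d := by
        gcongr
        exact hmain n N h2
    _ = 2 * (((2 * (N + 1 : ℕ) + 1 : ℝ) ^ d - (2 * (N - n : ℕ) + 1 : ℝ) ^ d) * d) /
          (2 * N + 1) ^ d + (d * (8 * C * Real.exp (-(a * n)))) := by
        rw [add_div, mul_div_cancel_left₀ _ hV.ne']
    _ < ε := by linarith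

end Pool.Agent.Helper79K9.SM
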