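import Pool.Agent.Helper79K9.SM.Press3

/-!
# Smoothness of the pressure
-/

set_option autoImplicit false

open Set Filter Topology MeasureTheory
open scoped ContDiff

namespace Pool.Agent.Helper79K9.SM

open Pool.H47EA (Site dist1 Coupling couplingLaw Unit01 LocalOn Jc sg lat Zp)
open Pool.Agent.Helper79K9.FS (DecaysAt phase gE_fun)

variable {d : ℕ}

/-- differentiation under the expectation -/
theorem smooth_average' {Ω : Type} [MeasurableSpace Ω] (P : Measure Ω)
    (p q : ℝ) (F : Ω → ℝ → ℝ) (K : Ω → ℝ) (hK : Integrable K P) (C : ℕ → ℝ → ℝ)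
    (h : ∀ᵐ J ∂P, (∀ k, ∀ t ∈ Ioo p q,
        HasDerivAt (iteratedDeriv k (F J)) (iteratedDeriv (k + 1) (F J) t) t) ∧
      ∀ k r, 0 < r → ∀ t ∈ Icc (p + r) (q - r), |iteratedDeriv k (F J) t| ≤ C k r * K J)
    (hm : ∀ k, ∀ t ∈ Ioo p q, AEStronglyMeasurable (fun J => iteratedDeriv k (F J) t) P) :
    ContDiffOn ℝ ∞ (fun t => ∫ J, F J t ∂P) (Ioo p q) ∧
      ∀ k, ∀ t ∈ Ioo p q, iteratedDeriv k (fun t => ∫ J, F J t ∂P) t =
        ∫ J, iteratedDeriv k (F J) t ∂P := by
  set W : ℕ → ℝ → ℝ := fun k t => ∫ J, iteratedDeriv k (F J) t ∂P with hW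
  have hb : ∀ k, ∀ t ∈ Ioo p q, Integrable (fun J => iteratedDeriv k (F J) t) P := by
    intro k t ht
    set r := min (t - p) (q - t) with hrd
    have hr : 0 < r := lt_min (by linarith [ht.1]) (by linarith [ht.2])
    refine Integrable.mono' (hK.const_mul (C k r)) (hm k t ht) ?_
    filter_upwards [h] with J hJ
    rw [Real.norm_eq_abs]
    refine hJ.2 k r hr t ⟨?_, ?_⟩
    · linarith [min_le_left (t - p) (q - t)]
    · linarith [min_le_right (t - p) (q - t)]
  have hWd : ∀ k, ∀ t ∈ Ioo p q, HasDerivAt (W k) (W (k + 1) t) t := by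
    intro k t ht
    set r := min (t - p) (q - t) / 2 with hrd
    have hr : 0 < r := by
      have : 0 < min (t - p) (q - t) := lt_min (by linarith [ht.1]) (by linarith [ht.2])
      positivity
    have htr : Ioo (p + r) (q - r) ∈ 𝓝 t := by
      refine isOpen_Ioo.mem_nhds ?_
      have h1 := min_le_left (t - p) (q - t)
      have h2 := min_le_right (t - p) (q - t)
      constructor <;> linarith
    refine (hasDerivAt_integral_of_dominated_loc_of_deriv_le (μ := P)
      (F := fun t J => iteratedDeriv k (F J) t) (F' := fun t J => iteratedDeriv (k + 1) (F J) t)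
      (bound := fun J => C (k + 1) r * K J) htr ?_ (hb k t ht)
      (hm (k + 1) t ht) ?_ (hK.const_mul _) ?_).2
    · filter_upwards [isOpen_Ioo.mem_nhds ht] with y hy
      exact hm k y hy
    · filter_upwards [h] with J hJ y hy
      rw [Real.norm_eq_abs]
      exact hJ.2 (k + 1) r hr y ⟨hy.1.le, hy.2.le⟩
    · filter_upwards [h] with J hJ y hy
      exact hJ.1 k y ⟨by linarith [hy.1], by linarith [hy.2]⟩
  have e0 : (fun t => ∫ J, F J t ∂P) = W 0 := by
    funext t
    simp only [hW, iteratedDeriv_zero]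
  rw [e0]
  exact ⟨contDiffOn_of_seq isOpen_Ioo W hWd 0, iteratedDeriv_of_seq isOpen_Ioo W hWd⟩


/-- averages over a set of signs -/
theorem average_on (a : ℝ) (ha : 0 < a) (p q : ℝ) (K : Site d → Coupling d → ℝ)
    (hK : ∀ x, (∀ J, 0 ≤ K x J) ∧ Integrable (K x) (couplingLaw d))
    (hD : ∀ᵐ J ∂(couplingLaw d), ∀ t ∈ Ioo p q, DecaysAt (Pool.H47EA.gE t J) (fun x => K x J) a)
    (π : Coupling d → ℝ → Measure (Site d → Bool))
    (hπ : ∀ᵐ J ∂(couplingLaw d), ∀ t ∈ Ioo p q, Pool.H47EA.IsGibbs t J (π J t))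
    (A : Finset (Site d)) (f : (Site d → Bool) → ℝ) (hf : Unit01 f) (hfA : LocalOn A f)
    (S : Set (Coupling d)) :
    ContDiffOn ℝ ∞ (fun t => ∫ J in S, ∫ σ, f σ ∂(π J t) ∂(couplingLaw d)) (Ioo p q) ∧
      ∀ t ∈ Ioo p q, AEStronglyMeasurable (fun J => ∫ σ, f σ ∂(π J t)) (couplingLaw d) := by
  obtain ⟨C, -, hC⟩ := model_smooth a ha d A.card
  have key : ∀ᵐ J ∂(couplingLaw d), (∀ k, ∀ t ∈ Ioo p q,
        HasDerivAt (iteratedDeriv k (fun t => ∫ σ, f σ ∂(π J t)))
          (iteratedDeriv (k + 1) (fun t => ∫ σ, f σ ∂(π J t)) t) t) ∧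
      (∀ k, ∀ t ∈ Ioo p q, Tendsto (fun n => iteratedDeriv k (fun t =>
          EA.gE (fun e => EA.cpl 0 (fun _ => 1) (fun _ => 1) J e +
            t * EA.cpl 1 (fun _ => 1) (fun _ => 1) J e) (fun _ => (0 : ℝ) + t * 0)
            (vol A n) (fun _ => true) f) t)
        atTop (𝓝 (iteratedDeriv k (fun t => ∫ σ, f σ ∂(π J t)) t))) ∧
      ∀ k r, 0 < r → ∀ t ∈ Icc (p + r) (q - r),
        |iteratedDeriv k (fun t => ∫ σ, f σ ∂(π J t)) t| ≤ C k r * (1 + ∑ x ∈ A, K x J) := by
    filter_upwards [hD, hπ] with J hJ hπJ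
    exact (hC p q (EA.cpl 0 (fun _ => 1) (fun _ => 1) J) (EA.cpl 1 (fun _ => 1) (fun _ => 1) J)
      (fun _ => 0) (fun _ => 0) (cpl_le (by norm_num) (fun _ => ⟨zero_le_one, le_rfl⟩)
        (fun _ => by norm_num) J) (fun _ => by norm_num) (fun x => K x J)
      (fun x => (hK x).1 J) (fun t ht => by
        rw [gE_line]
        exact hJ t ht) (π J) (fun t ht => by
        rw [gibbs_line]
        exact hπJ t ht) A f le_rfl hf hfA).2
  have hmeas : ∀ k, ∀ t ∈ Ioo p q, AEStronglyMeasurable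
      (fun J => iteratedDeriv k (fun t => ∫ σ, f σ ∂(π J t)) t) (couplingLaw d) := by
    intro k t ht
    refine aestronglyMeasurable_of_tendsto_ae atTop
      (fun n => (meas_iter k 0 1 (fun _ => 1) (fun _ => 1) (fun _ => 0) (fun _ => 0) (vol A n)
        (fun _ => true) f t).aestronglyMeasurable) ?_
    filter_upwards [key] with J hJ
    exact hJ.2.1 k t ht
  refine ⟨(smooth_average' ((couplingLaw d).restrict S) p q (fun J t => ∫ σ, f σ ∂(π J t))
    (fun J => 1 + ∑ x ∈ A, K x J) ?_ C ?_ ?_).1, fun t ht => ?_⟩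
  · exact ((integrable_const 1).add (integrable_finset_sum _ fun x _ => (hK x).2)).restrict
  · refine ae_restrict_of_ae ?_
    filter_upwards [key] with J hJ
    exact ⟨hJ.1, hJ.2.2⟩
  · intro k t ht
    exact (hmeas k t ht).restrict
  · have := hmeas 0 t ht
    simpa only [iteratedDeriv_zero] using this

/-- averages over a set of signs, on the phase -/
theorem phase_average_on (hd : 1 ≤ d) (π : Coupling d → ℝ → Measure (Site d → Bool))
    (hπ : ∀ᵐ J ∂(couplingLaw d), ∀ β ∈ phase d, Pool.H47EA.IsGibbs β J (π J β))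
    (A : Finset (Site d)) (f : (Site d → Bool) → ℝ) (hf : Unit01 f) (hfA : LocalOn A f)
    (S : Set (Coupling d)) :
    ContDiffOn ℝ ∞ (fun β => ∫ J in S, ∫ σ, f σ ∂(π J β) ∂(couplingLaw d)) (phase d) ∧
      ∀ β ∈ phase d, AEStronglyMeasurable (fun J => ∫ σ, f σ ∂(π J β)) (couplingLaw d) := by
  have main : ∀ β ∈ phase d, ∃ p q, β ∈ Ioo p q ∧
      ContDiffOn ℝ ∞ (fun t => ∫ J in S, ∫ σ, f σ ∂(π J t) ∂(couplingLaw d)) (Ioo p q) ∧
      AEStronglyMeasurable (fun J => ∫ σ, f σ ∂(π J β)) (couplingLaw d) := by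
    intro β hβ
    obtain ⟨n0, hn0, h⟩ := FS.exists_scale hβ
    obtain ⟨ε, hε, a, ha, C, -, K, hK, hD⟩ := FS.local_main hd β hn0 h
    obtain ⟨ε', hε', hball⟩ := Metric.isOpen_iff.1 (FS.isOpen_phase hd) β hβ
    set p := max (β - ε) (β - ε') with hp
    set q := min (β + ε) (β + ε') with hq
    have hβ' : β ∈ Ioo p q :=
      ⟨max_lt (by linarith) (by linarith), lt_min (by linarith) (by linarith)⟩
    have h1 := average_on a ha p q K (fun x => ⟨(hK x).1, (hK x).2.1⟩) (by
        filter_upwards [hD] with J hJ t ht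
        have h2 := (le_max_left (β - ε) (β - ε')).trans_lt ht.1
        have h3 := ht.2.trans_le (min_le_left (β + ε) (β + ε'))
        refine hJ t ?_
        rw [abs_lt]
        constructor <;> linarith) π (by
        filter_upwards [hπ] with J hJ t ht
        have h2 := (le_max_right (β - ε) (β - ε')).trans_lt ht.1
        have h3 := ht.2.trans_le (min_le_right (β + ε) (β + ε'))
        refine hJ t (hball ?_)
        rw [Metric.mem_ball, Real.dist_eq, abs_lt]
        constructor <;> linarith) A f hf hfA S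
    exact ⟨p, q, hβ', h1.1, h1.2 β hβ'⟩
  refine ⟨fun β hβ => ?_, fun β hβ => ?_⟩
  · obtain ⟨p, q, hβ', h1, -⟩ := main β hβ
    exact (h1.contDiffAt (isOpen_Ioo.mem_nhds hβ')).contDiffWithinAt
  · obtain ⟨p, q, -, -, h2⟩ := main β hβ
    exact h2

/-- the mean energy per site -/
noncomputable def uu (π : Coupling d → ℝ → Measure (Site d → Bool)) (β : ℝ) : ℝ :=
  ∑ i, ∫ J, ∫ σ, bnd J 0 i σ ∂(π J β) ∂(couplingLaw d)

theorem ff_unit (i : Fin d) :
    Unit01 (fun σ : Site d → Bool => (1 + sg (σ 0) * sg (σ (0 + ee i))) / 2) := by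
  intro σ
  have h : |sg (σ 0) * sg (σ (0 + ee i))| ≤ 1 := by
    rw [abs_mul, sg_abs, sg_abs]; norm_num
  have := abs_le.1 h
  constructor <;> linarith [this.1, this.2]

theorem ff_local (i : Fin d) : LocalOn {(0 : Site d), 0 + ee i}
    (fun σ : Site d → Bool => (1 + sg (σ 0) * sg (σ (0 + ee i))) / 2) := by
  intro σ σ' h
  show (1 + sg (σ 0) * sg (σ (0 + ee i))) / 2 = (1 + sg (σ' 0) * sg (σ' (0 + ee i))) / 2
  rw [h 0 (by simp), h (0 + ee i) (by simp)]

theorem uu_smooth (hd : 1 ≤ d) (π : Coupling d → ℝ → Measure (Site d → Bool))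
    (hπ : ∀ᵐ J ∂(couplingLaw d), ∀ β ∈ phase d, Pool.H47EA.IsGibbs β J (π J β)) :
    ContDiffOn ℝ ∞ (uu π) (phase d) := by
  unfold uu
  refine ContDiffOn.sum fun i _ => ?_
  have hadj : (lat d).Adj 0 (0 + ee i) := dist_ee 0 i
  set e0 : (lat d).edgeSet := ⟨s(0, 0 + ee i), hadj⟩ with he0
  set S : Set (Coupling d) := {J | J e0 = true} with hS
  have hSm : MeasurableSet S := measurableSet_eq_fun (measurable_pi_apply e0) measurable_const
  set f : (Site d → Bool) → ℝ := fun σ => (1 + sg (σ 0) * sg (σ (0 + ee i))) / 2 with hf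
  obtain ⟨s1, m1⟩ := phase_average_on hd π hπ _ f (ff_unit i) (ff_local i) S
  obtain ⟨s2, -⟩ := phase_average_on hd π hπ _ f (ff_unit i) (ff_local i) Sᶜ
  have hmf : Measurable f := EA.meas_local (ff_local i)
  have e1 : ∀ β ∈ phase d, ∫ J, ∫ σ, bnd J 0 i σ ∂(π J β) ∂(couplingLaw d) =
      (2 * (∫ J in S, ∫ σ, f σ ∂(π J β) ∂(couplingLaw d)) - (couplingLaw d).real S) -
        (2 * (∫ J in Sᶜ, ∫ σ, f σ ∂(π J β) ∂(couplingLaw d)) - (couplingLaw d).real Sᶜ) := by
    intro β hβ
    have hint : Integrable (fun J => ∫ σ, f σ ∂(π J β)) (couplingLaw d) := by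
      refine Integrable.of_bound (m1 β hβ) 1 ?_
      filter_upwards [hπ] with J hJ
      have := (hJ β hβ).1
      have := norm_integral_le_of_norm_le_const (μ := π J β) (f := f) (C := 1)
        (ae_of_all _ fun σ => by
          have := ff_unit i σ
          rw [Real.norm_eq_abs, abs_of_nonneg this.1]; exact this.2)
      simpa using this
    have hpt : ∀ᵐ J ∂(couplingLaw d), ∫ σ, bnd J 0 i σ ∂(π J β) =
        sg (J e0) * (2 * ∫ σ, f σ ∂(π J β) - 1) := by
      filter_upwards [hπ] with J hJ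
      have := (hJ β hβ).1
      have hfi : Integrable f (π J β) :=
        Integrable.of_bound hmf.aestronglyMeasurable 1 (ae_of_all _ fun σ => by
          have := ff_unit i σ
          rw [Real.norm_eq_abs, abs_of_nonneg this.1]; exact this.2)
      have e2 : bnd J 0 i = fun σ => sg (J e0) * (2 * f σ - 1) := by
        funext σ
        unfold bnd Jc
        rw [dif_pos hadj, hf]
        ring
      rw [e2, integral_const_mul, integral_sub (hfi.const_mul 2) (integrable_const _),
        integral_const_mul]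
      simp
    rw [integral_congr_ae hpt, ← integral_add_compl hSm]
    · have a1 : ∫ J in S, sg (J e0) * (2 * ∫ σ, f σ ∂(π J β) - 1) ∂(couplingLaw d) =
          ∫ J in S, (2 * ∫ σ, f σ ∂(π J β) - 1) ∂(couplingLaw d) := by
        refine setIntegral_congr_fun hSm fun J hJ => ?_
        have : J e0 = true := hJ
        simp [this, sg]
      have a2 : ∫ J in Sᶜ, sg (J e0) * (2 * ∫ σ, f σ ∂(π J β) - 1) ∂(couplingLaw d) =
          ∫ J in Sᶜ, -(2 * ∫ σ, f σ ∂(π J β) - 1) ∂(couplingLaw d) := by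
        refine setIntegral_congr_fun hSm.compl fun J hJ => ?_
        have : J e0 = false := by
          have : ¬ J e0 = true := hJ
          simpa using this
        simp [this, sg]
      rw [a1, a2, integral_neg, integral_sub (hint.restrict.const_mul 2) (integrable_const _),
        integral_sub (hint.restrict.const_mul 2) (integrable_const _), integral_const_mul,
        integral_const_mul]
      simp only [integral_const, smul_eq_mul, mul_one, measureReal_restrict_apply_univ]
      ring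
    · have hsg : Measurable fun J : Coupling d => sg (J e0) :=
        (measurable_of_finite sg).comp (measurable_pi_apply e0)
      exact ((hint.const_mul 2).sub (integrable_const 1)).bdd_mul (c := 1)
        hsg.aestronglyMeasurable (ae_of_all _ fun J => by
          rw [Real.norm_eq_abs]; exact (sg_abs _).le)
  refine ContDiffOn.congr ?_ e1
  exact ((contDiffOn_const.mul s1).sub contDiffOn_const).sub
    ((contDiffOn_const.mul s2).sub contDiffOn_const)

theorem uu_abs (π : Coupling d → ℝ → Measure (Site d → Bool))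
    (hπ : ∀ᵐ J ∂(couplingLaw d), ∀ β ∈ phase d, Pool.H47EA.IsGibbs β J (π J β)) {β : ℝ}
    (hβ : β ∈ phase d) : |uu π β| ≤ d := by
  unfold uu
  calc _ ≤ ∑ i, |∫ J, ∫ σ, bnd J 0 i σ ∂(π J β) ∂(couplingLaw d)| :=
        Finset.abs_sum_le_sum_abs _ _
    _ ≤ ∑ _i : Fin d, (1 : ℝ) := by
        refine Finset.sum_le_sum fun i _ => ?_
        have hae : ∀ᵐ J ∂(couplingLaw d), ‖∫ σ, bnd J 0 i σ ∂(π J β)‖ ≤ 1 := by
          filter_upwards [hπ] with J hJ
          have := (hJ β hβ).1
          have := norm_integral_le_of_norm_le_const (μ := π J β) (f := bnd J 0 i) (C := 1)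
            (ae_of_all _ fun σ => by rw [Real.norm_eq_abs]; exact bnd_abs J 0 i σ)
          simpa using this
        have := norm_integral_le_of_norm_le_const (μ := couplingLaw d) hae
        simpa using this
    _ = d := by simp

/-- the inverse temperatures such that all smaller ones are in the phase -/
def low (d : ℕ) : Set ℝ := {β | 0 < β ∧ Ioc 0 β ⊆ phase d}

theorem isOpen_low (hd : 1 ≤ d) : IsOpen (low d) := by
  rw [Metric.isOpen_iff]
  rintro β ⟨h0, h⟩
  obtain ⟨ε, hε, hball⟩ := Metric.isOpen_iff.1 (FS.isOpen_phase hd) β (h ⟨h0, le_rfl⟩)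
  refine ⟨min ε β, lt_min hε h0, fun b hb => ?_⟩
  rw [Metric.mem_ball, Real.dist_eq, abs_lt] at hb
  have h1 := min_le_left ε β
  have h2 := min_le_right ε β
  refine ⟨by linarith [hb.1], fun t ht => ?_⟩
  rcases le_total t β with h3 | h3
  · exact h ⟨ht.1, h3⟩
  · apply hball
    rw [Metric.mem_ball, Real.dist_eq, abs_lt]
    constructor <;> linarith [ht.2, hb.2]

theorem uu_int (hd : 1 ≤ d) (π : Coupling d → ℝ → Measure (Site d → Bool))
    (hπ : ∀ᵐ J ∂(couplingLaw d), ∀ β ∈ phase d, Pool.H47EA.IsGibbs β J (π J β)) {β : ℝ}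
    (hβ : β ∈ low d) : IntervalIntegrable (uu π) volume 0 β := by
  rw [intervalIntegrable_iff, uIoc_of_le hβ.1.le]
  refine Integrable.of_bound (C := (d : ℝ))
    (((uu_smooth hd π hπ).continuousOn.mono hβ.2).aestronglyMeasurable measurableSet_Ioc) ?_
  rw [ae_restrict_iff' measurableSet_Ioc]
  exact ae_of_all _ fun b hb => by
    rw [Real.norm_eq_abs]; exact uu_abs π hπ (hβ.2 hb)

/-- the pressure -/
noncomputable def pr (π : Coupling d → ℝ → Measure (Site d → Bool)) (β : ℝ) : ℝ :=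
  Real.log 2 + ∫ b in (0 : ℝ)..β, uu π b

theorem pr_deriv (hd : 1 ≤ d) (π : Coupling d → ℝ → Measure (Site d → Bool))
    (hπ : ∀ᵐ J ∂(couplingLaw d), ∀ β ∈ phase d, Pool.H47EA.IsGibbs β J (π J β)) {β : ℝ}
    (hβ : β ∈ low d) : HasDerivAt (pr π) (uu π β) β := by
  have hβp : β ∈ phase d := hβ.2 ⟨hβ.1, le_rfl⟩
  have hc := (uu_smooth hd π hπ).continuousOn
  have ho := FS.isOpen_phase hd
  unfold pr
  exact (intervalIntegral.integral_hasDerivAt_right (uu_int hd π hπ hβ)
    (hc.stronglyMeasurableAtFilter ho β hβp) (hc.continuousAt (ho.mem_nhds hβp))).const_add _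

theorem pr_smooth (hd : 1 ≤ d) (π : Coupling d → ℝ → Measure (Site d → Bool))
    (hπ : ∀ᵐ J ∂(couplingLaw d), ∀ β ∈ phase d, Pool.H47EA.IsGibbs β J (π J β)) :
    ContDiffOn ℝ ∞ (pr π) (low d) := by
  rw [contDiffOn_infty_iff_deriv_of_isOpen (isOpen_low hd)]
  refine ⟨fun β hβ => (pr_deriv hd π hπ hβ).differentiableAt.differentiableWithinAt, ?_⟩
  refine ((uu_smooth hd π hπ).mono fun β hβ => hβ.2 ⟨hβ.1, le_rfl⟩).congr fun β hβ => ?_
  exact (pr_deriv hd π hπ hβ).deriv

/-- existence of the pressure -/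
theorem pr_limit (hd : 1 ≤ d) (π : Coupling d → ℝ → Measure (Site d → Bool))
    (hπ : ∀ᵐ J ∂(couplingLaw d), ∀ β ∈ phase d, Pool.H47EA.IsGibbs β J (π J β)) {β : ℝ}
    (hβ : β ∈ low d) (ξ : ℕ → Site d → Bool) :
    Tendsto (fun N => (∫ J, Real.log (Zp β J (Box d N) (ξ N)) ∂(couplingLaw d)) /
      (2 * N + 1) ^ d) atTop (𝓝 (pr π β)) := by
  have h1 : Tendsto (fun N : ℕ => ∫ b in (0 : ℝ)..β, EN b (Box d N) (ξ N) / (2 * N + 1) ^ d)
      atTop (𝓝 (∫ b in (0 : ℝ)..β, uu π b)) := by
    refine intervalIntegral.tendsto_integral_filter_of_dominated_convergence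
      (fun _ => 2 * (d : ℝ)) ?_ ?_ ?_ ?_
    · exact Filter.Eventually.of_forall fun N =>
        ((EN_cont (Box d N) (ξ N)).div_const _).aestronglyMeasurable
    · refine Filter.Eventually.of_forall fun N => ae_of_all _ fun b _ => ?_
      have hV : (0 : ℝ) < (2 * N + 1) ^ d := by positivity
      rw [Real.norm_eq_abs, abs_div, abs_of_pos hV, div_le_iff₀ hV]
      have h2 := EN_abs b (Box d N) (ξ N)
      rw [card_Box] at h2
      push_cast at h2
      exact h2
    · exact intervalIntegrable_const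
    · refine ae_of_all _ fun b hb => ?_
      rw [uIoc_of_le hβ.1.le] at hb
      have hbp := hβ.2 hb
      obtain ⟨n0, hn0, h⟩ := FS.exists_scale hbp
      obtain ⟨ε, hε, a, ha, C, -, K, hK, hD⟩ := FS.local_main hd b hn0 h
      unfold uu
      refine EN_limit ha K hK ?_ (fun J => π J b) ?_ ξ
      · filter_upwards [hD] with J hJ
        exact hJ b (by simpa using hε)
      · filter_upwards [hπ] with J hJ
        exact hJ b hbp
  have h2 := h1.const_add (Real.log 2)
  refine h2.congr fun N => ?_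
  have hV : (0 : ℝ) < (2 * N + 1) ^ d := by positivity
  have h3 := FE_eq β (Box d N) (ξ N)
  unfold FE at h3
  rw [h3, intervalIntegral.integral_div, card_Box]
  push_cast
  field_simp

end Pool.Agent.Helper79K9.SM
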